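import Mathlib

set_option autoImplicit false

namespace Pool.Agent.Run7.h644.CU

open Module

/-- `K_k` is a minor of `G`. -/
def HasMinor {V : Type} (G : SimpleGraph V) (k : ℕ) : Prop :=
  ∃ f : Fin k → Set V,
    (∀ i, (G.induce (f i)).Connected) ∧
    (∀ i j, i ≠ j → Disjoint (f i) (f j)) ∧
    (∀ i j, i ≠ j → ∃ u ∈ f i, ∃ v ∈ f j, G.Adj u v)

/-- Reachability inside `B`. -/
def Rch {V : Type} (G : SimpleGraph V) (B : Set V) (x y : V) : Prop :=
  Relation.ReflTransGen (fun x y => y ∈ B ∧ G.Adj x y) x y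

/-- `B` is connected from one of its points. -/
def Conn {V : Type} (G : SimpleGraph V) (B : Set V) : Prop :=
  ∃ c ∈ B, ∀ x ∈ B, Rch G B c x

theorem Rch.mono {V : Type} {G : SimpleGraph V} {B B' : Set V} (h : B ⊆ B') {x y : V}
    (hr : Rch G B x y) : Rch G B' x y := by
  induction hr with
  | refl => exact Relation.ReflTransGen.refl
  | tail _ h2 ih => exact Relation.ReflTransGen.tail ih ⟨h h2.1, h2.2⟩

theorem Rch.trans {V : Type} {G : SimpleGraph V} {B : Set V} {x y z : V}
    (h1 : Rch G B x y) (h2 : Rch G B y z) : Rch G B x z := Relation.ReflTransGen.trans h1 h2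

theorem Rch.refl {V : Type} {G : SimpleGraph V} {B : Set V} (x : V) : Rch G B x x :=
  Relation.ReflTransGen.refl

theorem Rch.step {V : Type} {G : SimpleGraph V} {B : Set V} {x y z : V}
    (h1 : Rch G B x y) (h2 : z ∈ B) (h3 : G.Adj y z) : Rch G B x z :=
  Relation.ReflTransGen.tail h1 ⟨h2, h3⟩

theorem Conn.induce {V : Type} {G : SimpleGraph V} {B : Set V} (h : Conn G B) :
    (G.induce B).Connected := by
  obtain ⟨c, hc, h⟩ := h
  have key : ∀ x, Rch G B c x → ∃ hx : x ∈ B, (G.induce B).Reachable ⟨c, hc⟩ ⟨x, hx⟩ := by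
    intro x hx
    induction hx with
    | refl => exact ⟨hc, SimpleGraph.Reachable.refl _⟩
    | tail _ h2 ih =>
      obtain ⟨hy, ih⟩ := ih
      exact ⟨h2.1, ih.trans (SimpleGraph.Adj.reachable (by simpa using h2.2))⟩
  rw [SimpleGraph.connected_iff_exists_forall_reachable]
  refine ⟨⟨c, hc⟩, ?_⟩
  intro ⟨x, hx⟩
  obtain ⟨_, h'⟩ := key x (h x hx)
  exact h'

/-- Translation invariance. -/
def TI {V : Type} [AddCommGroup V] (G : SimpleGraph V) : Prop :=
  ∀ x y z : V, G.Adj (x + z) (y + z) ↔ G.Adj x y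

section

variable {V : Type} [AddCommGroup V] {G : SimpleGraph V}

theorem TI.adj (hG : TI G) (x y : V) : G.Adj x y ↔ G.Adj 0 (y - x) := by
  have := hG 0 (y - x) x
  rw [zero_add, sub_add_cancel] at this
  exact this

theorem TI.neg (hG : TI G) {s : V} (h : G.Adj 0 s) : G.Adj 0 (-s) := by
  have h1 := (hG.adj s 0).1 h.symm
  rwa [zero_sub] at h1

theorem TI.add (hG : TI G) (x : V) {s : V} (h : G.Adj 0 s) : G.Adj x (x + s) := by
  rw [hG.adj, add_sub_cancel_left]; exact h

theorem Rch.translate (hG : TI G) {B : Set V} {x y : V} (t : V) (h : Rch G B x y) :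
    Rch G ((fun z => z + t) '' B) (x + t) (y + t) := by
  induction h with
  | refl => exact Relation.ReflTransGen.refl
  | @tail a b _ hab ih =>
    exact Relation.ReflTransGen.tail ih ⟨⟨b, hab.1, rfl⟩, (hG a b t).2 hab.2⟩

theorem Conn.translate (hG : TI G) {B : Set V} (t : V) (h : Conn G B) :
    Conn G ((fun z => z + t) '' B) := by
  obtain ⟨c, hc, h⟩ := h
  refine ⟨c + t, ⟨c, hc, rfl⟩, ?_⟩
  rintro _ ⟨x, hx, rfl⟩
  exact (h x hx).translate hG t

/-- Minor consisting of the translates of one connected set. -/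
theorem minor_of_translates [Finite V] (hG : TI G) {C : Set V} (hC : Conn G C)
    (R : AddSubgroup V) (h1 : ∀ c ∈ C, ∀ c' ∈ C, c - c' ∈ R → c = c')
    (h2 : ∀ r ∈ R, r ≠ 0 → ∃ c ∈ C, ∃ c' ∈ C, G.Adj c (c' + r)) {k : ℕ}
    (hk : k ≤ Nat.card R) : HasMinor G k := by
  let e : R ≃ Fin (Nat.card R) := Finite.equivFin R
  let r : Fin k → R := fun i => e.symm (Fin.castLE hk i)
  have hr : Function.Injective r := by
    intro i j hij
    exact Fin.castLE_injective hk (e.symm.injective hij)
  refine ⟨fun i => (fun z => z + (r i : V)) '' C, ?_, ?_, ?_⟩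
  · intro i
    exact (hC.translate hG _).induce
  · intro i j hij
    rw [Set.disjoint_left]
    rintro _ ⟨c, hc, rfl⟩ ⟨c', hc', h⟩
    simp only at h
    have h3 : c - c' = (r j : V) - r i := by
      rw [sub_eq_sub_iff_add_eq_add, ← h]; abel
    have h4 : c = c' := h1 c hc c' hc' (by rw [h3]; exact R.sub_mem (r j).2 (r i).2)
    apply hij
    apply hr
    apply Subtype.ext
    rw [h4] at h
    exact (add_left_cancel h).symm
  · intro i j hij
    have hne : (r j : V) - r i ≠ 0 := by
      intro h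
      exact hij (hr (Subtype.ext (sub_eq_zero.1 h).symm))
    obtain ⟨c, hc, c', hc', hadj⟩ := h2 _ (R.sub_mem (r j).2 (r i).2) hne
    refine ⟨_, ⟨c, hc, rfl⟩, _, ⟨c', hc', rfl⟩, ?_⟩
    have h5 := (hG c (c' + ((r j : V) - r i)) (r i)).2 hadj
    have h6 : c' + ((r j : V) - r i) + r i = c' + r j := by abel
    rw [h6] at h5
    exact h5

/-- Colouring by the cosets of an independent subgroup. -/
theorem colorable_quotient [Finite V] (hG : TI G) (U : AddSubgroup V)
    (hU : ∀ u ∈ U, ¬ G.Adj 0 u) : G.Colorable (Nat.card (V ⧸ U)) := by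
  have h : G.Coloring (V ⧸ U) := by
    refine SimpleGraph.Coloring.mk (fun x => (x : V ⧸ U)) ?_
    intro x y hxy h
    rw [QuotientAddGroup.eq] at h
    refine hU _ h ?_
    have := (hG.adj x y).1 hxy
    rwa [sub_eq_neg_add] at this
  have := Fintype.ofFinite (V ⧸ U)
  rw [Nat.card_eq_fintype_card]
  exact h.colorable

end

section greedy

variable {p : ℕ} [Fact p.Prime] {W : Type} [AddCommGroup W] [Module (ZMod p) W] [Finite W]

theorem finrank_sup_singleton (R : Submodule (ZMod p) W) {x : W} (hx : x ∉ R) :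
    finrank (ZMod p) (R ⊔ Submodule.span (ZMod p) {x} : Submodule (ZMod p) W) =
      finrank (ZMod p) R + 1 := by
  have h1 := Submodule.finrank_sup_add_finrank_inf_eq R (Submodule.span (ZMod p) {x})
  have h2 : R ⊓ Submodule.span (ZMod p) {x} = ⊥ :=
    (Submodule.disjoint_span_singleton_of_notMem hx).eq_bot
  have h3 : x ≠ 0 := by
    rintro rfl
    exact hx R.zero_mem
  rw [h2, finrank_bot, finrank_span_singleton h3] at h1
  omega

theorem card_pow (R : Submodule (ZMod p) W) : Nat.card R = p ^ finrank (ZMod p) R := by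
  have := Fintype.ofFinite R
  rw [Nat.card_eq_fintype_card, Module.card_eq_pow_finrank (K := ZMod p), ZMod.card]

/-- Greedy choice of a subspace of given dimension avoiding a small set. -/
theorem greedy (E : Set W) (h0 : (0 : W) ∉ E) (m : ℕ)
    (h : (E.ncard + 1) * p ^ m ≤ Nat.card W) :
    ∃ R : Submodule (ZMod p) W, finrank (ZMod p) R = m ∧ ∀ x ∈ R, x ∉ E := by
  have hp : 2 ≤ p := (Fact.out : p.Prime).two_le
  induction m with
  | zero =>
    refine ⟨⊥, finrank_bot _ _, ?_⟩
    intro x hx hxE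
    rw [Submodule.mem_bot] at hx
    rw [hx] at hxE
    exact h0 hxE
  | succ m ih =>
    obtain ⟨R, hR, hRE⟩ := ih (le_trans (Nat.mul_le_mul_left _
      (Nat.pow_le_pow_right (by omega) (Nat.le_succ m))) h)
    have hRc : (R : Set W).ncard = p ^ m := by
      rw [← hR, ← card_pow R]; rfl
    set X : Set W := (R : Set W) ∪ (fun t : ZMod p × (W × W) => t.1 • (t.2.1 - t.2.2)) ''
      ((Set.univ : Set (ZMod p)) ×ˢ (E ×ˢ (R : Set W))) with hX
    have hXc : X.ncard < Nat.card W := by
      have h1 := Set.ncard_union_le (R : Set W)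
        ((fun t : ZMod p × (W × W) => t.1 • (t.2.1 - t.2.2)) ''
          ((Set.univ : Set (ZMod p)) ×ˢ (E ×ˢ (R : Set W))))
      have h2 := Set.ncard_image_le (f := fun t : ZMod p × (W × W) => t.1 • (t.2.1 - t.2.2))
        (s := (Set.univ : Set (ZMod p)) ×ˢ (E ×ˢ (R : Set W))) (Set.toFinite _)
      rw [Set.ncard_prod, Set.ncard_prod, Set.ncard_univ, Nat.card_zmod, hRc] at h2
      rw [hRc] at h1
      have h3 : p ^ m + p * (E.ncard * p ^ m) < (E.ncard + 1) * p ^ (m + 1) := by
        have h4 : 0 < p ^ m := pow_pos (by omega) m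
        rw [pow_succ]
        nlinarith [Nat.mul_le_mul_left (p ^ m) hp]
      have h5 : X.ncard ≤ p ^ m + p * (E.ncard * p ^ m) :=
        le_trans h1 (Nat.add_le_add_left h2 _)
      exact lt_of_le_of_lt h5 (lt_of_lt_of_le h3 h)
    obtain ⟨x, hx⟩ : ∃ x, x ∉ X := by
      by_contra hcon
      push Not at hcon
      rw [Set.eq_univ_of_forall hcon, Set.ncard_univ] at hXc
      exact lt_irrefl _ hXc
    have hxR : x ∉ R := fun h => hx (Or.inl h)
    refine ⟨R ⊔ Submodule.span (ZMod p) {x}, by rw [finrank_sup_singleton R hxR, hR], ?_⟩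
    intro y hy hyE
    rw [Submodule.mem_sup] at hy
    obtain ⟨r, hr, z, hz, rfl⟩ := hy
    rw [Submodule.mem_span_singleton] at hz
    obtain ⟨c, rfl⟩ := hz
    by_cases hc : c = 0
    · rw [hc, zero_smul, add_zero] at hyE
      exact hRE r hr hyE
    · apply hx
      right
      refine ⟨(c⁻¹, (r + c • x, r)), ⟨Set.mem_univ _, hyE, hr⟩, ?_⟩
      simp only
      rw [add_sub_cancel_left, smul_smul, inv_mul_cancel₀ hc, one_smul]

end greedy

end Pool.Agent.Run7.h644.CU
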