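import Pool.Agent.Run7.h644.CU.Sparse

set_option autoImplicit false

namespace Pool.Agent.Run7.h644.CU

open Module

section

variable {p : ℕ} [Fact p.Prime] {V : Type} [AddCommGroup V] [Module (ZMod p) V]
  {G : SimpleGraph V}

/-- The span of a part of the connection set is connected. -/
theorem span_conn (hG : TI G) (D : Set V) (hD : ∀ u ∈ D, G.Adj 0 u) :
    ∀ x ∈ Submodule.span (ZMod p) D, ∀ y ∈ Submodule.span (ZMod p) D,
      Rch G (Submodule.span (ZMod p) D : Set V) y (y + x) := by
  set X := Submodule.span (ZMod p) D with hX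
  intro x hx
  rw [hX] at hx
  induction hx using Submodule.span_induction with
  | mem u hu =>
    intro y hy
    exact (Rch.refl y).step (X.add_mem hy (Submodule.subset_span hu)) (hG.add y (hD u hu))
  | zero =>
    intro y _
    rw [add_zero]
    exact Rch.refl y
  | add a b ha hb iha ihb =>
    intro y hy
    rw [← add_assoc]
    exact (iha y hy).trans (ihb _ (X.add_mem hy ha))
  | smul c a ha iha =>
    intro y hy
    have key : ∀ n : ℕ, Rch G (X : Set V) y (y + (n : ZMod p) • a) := by
      intro n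
      induction n with
      | zero => rw [Nat.cast_zero, zero_smul, add_zero]; exact Rch.refl y
      | succ n ih =>
        rw [Nat.cast_succ, add_smul, one_smul, ← add_assoc]
        exact ih.trans (iha _ (X.add_mem hy (X.smul_mem _ ha)))
    have := key c.val
    rwa [ZMod.natCast_zmod_val] at this

theorem span_conn0 (hG : TI G) (D : Set V) (hD : ∀ u ∈ D, G.Adj 0 u) :
    ∀ x ∈ Submodule.span (ZMod p) D, Rch G (Submodule.span (ZMod p) D : Set V) 0 x := by
  intro x hx
  have := span_conn hG D hD x hx 0 (Submodule.zero_mem _)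
  rwa [zero_add] at this

theorem span_top (hspan : AddSubgroup.closure {s | G.Adj 0 s} = ⊤) :
    Submodule.span (ZMod p) {s | G.Adj 0 s} = ⊤ := by
  rw [eq_top_iff]
  intro x _
  have h1 : AddSubgroup.closure {s | G.Adj 0 s} ≤
      (Submodule.span (ZMod p) {s | G.Adj 0 s}).toAddSubgroup := by
    rw [AddSubgroup.closure_le]
    exact Submodule.subset_span
  rw [hspan] at h1
  exact h1 (AddSubgroup.mem_top x)

/-- A basis inside the connection set of a subspace spanned by it. -/
theorem exists_basis [Finite V] (M : Submodule (ZMod p) V) (D : Set V)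
    (hM : Submodule.span (ZMod p) D = M) (m : ℕ) (hm : finrank (ZMod p) M = m) :
    ∃ f : Fin m → V, (∀ i, f i ∈ D) ∧ Submodule.span (ZMod p) (Set.range f) = M ∧
      LinearIndependent (ZMod p) f := by
  subst hm
  subst hM
  exact Submodule.exists_fun_fin_finrank_span_eq (ZMod p) D

/-- `K_{p^b}` is a minor of every connected Cayley graph of `F_p^n` with `n ≥ 2 b + 1`. -/
theorem cross [Finite V] (hG : TI G) (hspan : AddSubgroup.closure {s | G.Adj 0 s} = ⊤) (b : ℕ)
    (hb : 2 * b + 1 ≤ finrank (ZMod p) V) : HasMinor G (p ^ b) := by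
  classical
  obtain ⟨f, hfS, -, hfi⟩ := exists_basis (⊤ : Submodule (ZMod p) V) _ (span_top hspan)
    (finrank (ZMod p) V) (finrank_top _ _)
  have hcard : Fintype.card (Fin b ⊕ (Fin b ⊕ Unit)) ≤ Fintype.card (Fin (finrank (ZMod p) V)) := by
    simp only [Fintype.card_sum, Fintype.card_fin, Fintype.card_unit]
    omega
  obtain ⟨ι⟩ := Function.Embedding.nonempty_of_card_le hcard
  set h : Fin b ⊕ (Fin b ⊕ Unit) → V := f ∘ ι with hh
  have hhi : LinearIndependent (ZMod p) h := hfi.comp ι ι.injective
  have hhS : ∀ j, G.Adj 0 (h j) := fun j => hfS _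
  set φ1 : (Fin b → ZMod p) →ₗ[ZMod p] V :=
    Fintype.linearCombination (ZMod p) (fun i => h (Sum.inl i)) with hφ1
  set φ2 : (Fin b → ZMod p) →ₗ[ZMod p] V :=
    Fintype.linearCombination (ZMod p) (fun i => h (Sum.inr (Sum.inl i))) with hφ2
  set v := h (Sum.inr (Sum.inr ())) with hv
  have ind : ∀ (c c' : Fin b → ZMod p) (k : ZMod p), φ1 c + (φ2 c' + k • v) = 0 →
      c = 0 ∧ c' = 0 ∧ k = 0 := by
    intro c c' k h0
    rw [Fintype.linearIndependent_iff] at hhi
    have h1 := hhi (Sum.elim c (Sum.elim c' (fun _ => k))) (by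
      rw [Fintype.sum_sum_type, Fintype.sum_sum_type]
      simp only [Sum.elim_inl, Sum.elim_inr, Finset.univ_unique, Finset.sum_singleton]
      rw [hφ1, hφ2, Fintype.linearCombination_apply, Fintype.linearCombination_apply] at h0
      exact h0)
    refine ⟨?_, ?_, ?_⟩
    · ext i; exact h1 (Sum.inl i)
    · ext i; exact h1 (Sum.inr (Sum.inl i))
    · exact h1 (Sum.inr (Sum.inr ()))
  set C : Set V := (LinearMap.range φ1 : Set V) ∪ (fun z => z + v) '' (LinearMap.range φ2 : Set V)
    with hC
  have h0C : (0 : V) ∈ C := Or.inl (LinearMap.range φ1).zero_mem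
  have hvC : v ∈ C := Or.inr ⟨0, (LinearMap.range φ2).zero_mem, zero_add v⟩
  have hconn : Conn G C := by
    have hr1 : LinearMap.range φ1 = Submodule.span (ZMod p)
        (Set.range (fun i => h (Sum.inl i))) := Fintype.range_linearCombination ..
    have hr2 : LinearMap.range φ2 = Submodule.span (ZMod p)
        (Set.range (fun i => h (Sum.inr (Sum.inl i)))) := Fintype.range_linearCombination ..
    refine ⟨0, h0C, ?_⟩
    rintro x (hx | ⟨y, hy, rfl⟩)
    · have h1 := span_conn0 (p := p) hG (Set.range (fun i => h (Sum.inl i)))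
        (by rintro _ ⟨i, rfl⟩; exact hhS _) x (by rw [← hr1]; exact hx)
      rw [← hr1] at h1
      exact h1.mono Set.subset_union_left
    · have h1 := span_conn0 (p := p) hG (Set.range (fun i => h (Sum.inr (Sum.inl i))))
        (by rintro _ ⟨i, rfl⟩; exact hhS _) y (by rw [← hr2]; exact hy)
      rw [← hr2] at h1
      have h2 := (h1.translate hG v).mono
        (Set.subset_union_right : _ ⊆ (LinearMap.range φ1 : Set V) ∪
          (fun z => z + v) '' (LinearMap.range φ2 : Set V))
      rw [zero_add] at h2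
      exact ((Rch.refl (G := G) (B := C) (0 : V)).step hvC (hhS _)).trans h2
  set R := LinearMap.range (φ1 + φ2) with hR
  have hRc : Nat.card R = p ^ b := by
    have hinj : Function.Injective (φ1 + φ2) := by
      rw [injective_iff_map_eq_zero]
      intro c hc
      have := ind c c 0 (by rw [zero_smul, add_zero]; exact hc)
      exact this.1
    rw [Nat.card_congr (LinearEquiv.ofInjective (φ1 + φ2) hinj).symm.toEquiv]
    simp
  refine minor_of_translates hG hconn R.toAddSubgroup ?_ ?_ (le_of_eq hRc.symm)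
  · rintro c hc c' hc' ⟨d, hd⟩
    rw [LinearMap.add_apply] at hd
    rcases hc with ⟨x, rfl⟩ | ⟨_, ⟨x, rfl⟩, rfl⟩ <;> rcases hc' with ⟨x', rfl⟩ | ⟨_, ⟨x', rfl⟩, rfl⟩
    · have h1 := ind (d - x + x') d 0 (by
        rw [zero_smul, add_zero, map_add, map_sub]
        have : φ1 d - φ1 x + φ1 x' + φ2 d = (φ1 d + φ2 d) - (φ1 x - φ1 x') := by abel
        rw [this, hd, sub_self])
      rw [h1.2.1, map_zero, map_zero, add_zero] at hd
      exact (sub_eq_zero.1 hd.symm)
    · exfalso
      simp only at hd
      have h1 := ind (d - x) (d + x') 1 (by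
        rw [one_smul, map_add, map_sub]
        have : φ1 d - φ1 x + (φ2 d + φ2 x' + v) = (φ1 d + φ2 d) - (φ1 x - (φ2 x' + v)) := by abel
        rw [this, hd, sub_self])
      exact one_ne_zero h1.2.2
    · exfalso
      simp only at hd
      have h1 := ind (d + x') (d - x) (-1) (by
        rw [neg_one_smul, map_add, map_sub]
        have : φ1 d + φ1 x' + (φ2 d - φ2 x + -v) = (φ1 d + φ2 d) - (φ2 x + v - φ1 x') := by abel
        rw [this, hd, sub_self])
      exact neg_ne_zero.2 one_ne_zero h1.2.2
    · simp only at hd ⊢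
      have h1 := ind d (d - x + x') 0 (by
        rw [zero_smul, add_zero, map_add, map_sub]
        have : φ1 d + (φ2 d - φ2 x + φ2 x') = (φ1 d + φ2 d) - (φ2 x + v - (φ2 x' + v)) := by abel
        rw [this, hd, sub_self])
      rw [h1.1, map_zero, map_zero, add_zero] at hd
      exact (sub_eq_zero.1 hd.symm)
  · rintro r ⟨d, rfl⟩ _
    refine ⟨φ2 d + v, Or.inr ⟨φ2 d, ⟨d, rfl⟩, rfl⟩, φ1 (-d), Or.inl ⟨-d, rfl⟩, ?_⟩
    have h1 : φ1 (-d) + (φ1 + φ2) d = φ2 d := by
      rw [map_neg, LinearMap.add_apply]; abel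
    rw [h1]
    exact (hG.add _ (hhS _)).symm

end

end Pool.Agent.Run7.h644.CU
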