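import Pool.Agent.Run7.h644.CU.Mid

set_option autoImplicit false

namespace Pool.Agent.Run7.h644.CU

open Module

section

variable {V : Type} [AddCommGroup V] [Module (ZMod 2) V] [Finite V] {G : SimpleGraph V}

/-- Independent subgroups of order four in characteristic two with a coset containing three
elements of the connection set. -/
theorem tiny (hG : TI G) (U : Submodule (ZMod 2) V) (hU : ∀ u ∈ U, ¬ G.Adj 0 u)
    (hit : ∀ x, x ∉ U → ∃ u ∈ U, G.Adj 0 (x + u))
    (h4 : Nat.card U = 4) (z : V) (S' : Set V)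
    (hS' : ∀ s ∈ S', G.Adj 0 s ∧ s - z ∈ U) (hcard : 2 < S'.ncard) :
    HasMinor G (Nat.card (V ⧸ U)) := by
  classical
  have h2 : ∀ x : V, x + x = 0 := fun x => by
    have : (2 : ZMod 2) • x = x + x := two_smul _ x
    rw [← this]
    have h : (2 : ZMod 2) = 0 := rfl
    rw [h, zero_smul]
  have hneg : ∀ x : V, -x = x := fun x => by
    rw [neg_eq_iff_add_eq_zero]; exact h2 x
  have hsub : ∀ x y : V, x - y = x + y := fun x y => by rw [sub_eq_add_neg, hneg]
  obtain ⟨s1, s2, s3, h1S, h2S, h3S, h12, h13, h23⟩ := (Set.two_lt_ncard_iff (Set.toFinite S')).1 hcard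
  have hs1 := hS' s1 h1S
  have hs2 := hS' s2 h2S
  have hs3 := hS' s3 h3S
  have hu12 : s1 + s2 ∈ U := by
    have := U.sub_mem hs1.2 hs2.2
    have e : s1 - z - (s2 - z) = s1 - s2 := by abel
    rw [e, hsub] at this
    exact this
  have hu13 : s1 + s3 ∈ U := by
    have := U.sub_mem hs1.2 hs3.2
    have e : s1 - z - (s3 - z) = s1 - s3 := by abel
    rw [e, hsub] at this
    exact this
  have hu23 : s2 + s3 ∈ U := by
    have := U.add_mem hu12 hu13
    have e : s1 + s2 + (s1 + s3) = (s1 + s1) + (s2 + s3) := by abel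
    rw [e, h2, zero_add] at this
    exact this
  have hs1U : s1 ∉ U := fun h => hU s1 h hs1.1
  have hs2U : s2 ∉ U := fun h => hU s2 h hs2.1
  have ne12 : s1 + s2 ≠ 0 := fun h => h12 (by rw [← sub_eq_zero, hsub]; exact h)
  have ne13 : s1 + s3 ≠ 0 := fun h => h13 (by rw [← sub_eq_zero, hsub]; exact h)
  have ne23 : s2 + s3 ≠ 0 := fun h => h23 (by rw [← sub_eq_zero, hsub]; exact h)
  -- the elements of `U`
  have hUeq : ∀ u ∈ U, u = 0 ∨ u = s1 + s2 ∨ u = s1 + s3 ∨ u = s2 + s3 := by
    have hsubset : ({0, s1 + s2, s1 + s3, s2 + s3} : Set V) ⊆ (U : Set V) := by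
      rintro x (rfl | rfl | rfl | rfl)
      · exact U.zero_mem
      · exact hu12
      · exact hu13
      · exact hu23
    have hc : ({0, s1 + s2, s1 + s3, s2 + s3} : Set V).ncard = 4 := by
      have a1 : (0 : V) ∉ ({s1 + s2, s1 + s3, s2 + s3} : Set V) := by
        rintro (h | h | h)
        · exact ne12 h.symm
        · exact ne13 h.symm
        · exact ne23 h.symm
      have a2 : s1 + s2 ∉ ({s1 + s3, s2 + s3} : Set V) := by
        rintro (h | h)
        · exact h23 (add_left_cancel h)
        · rw [add_comm s2 s3] at h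
          exact h13 (add_right_cancel h)
      have a3 : s1 + s3 ≠ s2 + s3 := fun h => h12 (add_right_cancel h)
      rw [Set.ncard_insert_of_notMem a1, Set.ncard_insert_of_notMem a2, Set.ncard_pair a3]
    have hU4 : (U : Set V).ncard = 4 := h4
    have heq := Set.eq_of_subset_of_ncard_le hsubset (by rw [hc, hU4]) (Set.toFinite _)
    intro u hu
    have : u ∈ ({0, s1 + s2, s1 + s3, s2 + s3} : Set V) := by rw [heq]; exact hu
    exact this
  -- two functionals
  have hfun : ∀ (W : Submodule (ZMod 2) V) (v : V), v ∉ W →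
      ∃ f : V →ₗ[ZMod 2] ZMod 2, f v = 1 ∧ ∀ x ∈ W, f x = 0 := by
    intro W v hv
    obtain ⟨f, hf, hW⟩ := Submodule.exists_le_ker_of_notMem hv
    refine ⟨f, ?_, fun x hx => hW hx⟩
    generalize f v = y at hf
    revert hf
    revert y
    decide
  have hmem2 : ∀ x y w : V, w ∈ Submodule.span (ZMod 2) ({x, y} : Set V) →
      w = 0 ∨ w = x ∨ w = y ∨ w = x + y := by
    intro x y w hw
    rw [Submodule.mem_span_pair] at hw
    obtain ⟨c, d, rfl⟩ := hw
    have hcd : ∀ e : ZMod 2, e = 0 ∨ e = 1 := by decide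
    rcases hcd c with rfl | rfl <;> rcases hcd d with rfl | rfl <;> simp
  obtain ⟨f1, hf1, hf1'⟩ := hfun (Submodule.span (ZMod 2) {s2, s1 + s3}) s1 (by
    intro h
    rcases hmem2 _ _ _ h with h | h | h | h
    · exact hs1U (h ▸ U.zero_mem)
    · exact h12 h
    · exact hs1U (h ▸ hu13)
    · apply h23
      have e : s1 = s1 + (s2 + s3) := by
        conv_lhs => rw [h]
        abel
      have e2 : s2 + s3 = 0 := by
        have := add_left_cancel (a := s1) (b := s2 + s3) (c := 0) (by rw [add_zero]; exact e.symm)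
        exact this
      exact absurd e2 ne23)
  obtain ⟨f2, hf2, hf2'⟩ := hfun (Submodule.span (ZMod 2) {s1, s3}) s2 (by
    intro h
    rcases hmem2 _ _ _ h with h | h | h | h
    · exact hs2U (h ▸ U.zero_mem)
    · exact h12 h.symm
    · exact h23 h
    · exact hs2U (h ▸ hu13))
  have f12 : f1 s2 = 0 := hf1' _ (Submodule.subset_span (by simp))
  have f13 : f1 s3 = 1 := by
    have := hf1' (s1 + s3) (Submodule.subset_span (by simp))
    rw [map_add, hf1] at this
    generalize f1 s3 = y at this
    revert this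
    revert y
    decide
  have f21 : f2 s1 = 0 := hf2' _ (Submodule.subset_span (by simp))
  have f23 : f2 s3 = 0 := hf2' _ (Submodule.subset_span (by simp))
  set R := LinearMap.ker f1 ⊓ LinearMap.ker f2 with hR
  have hker : ∀ f : V →ₗ[ZMod 2] ZMod 2, finrank (ZMod 2) V ≤ finrank (ZMod 2) (LinearMap.ker f) + 1 := by
    intro f
    have h1 := LinearMap.finrank_range_add_finrank_ker f
    have h2 := Submodule.finrank_le (LinearMap.range f)
    rw [finrank_self] at h2
    omega
  have ha : finrank (ZMod 2) U = 2 := by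
    have h5 := card_pow U
    rw [h4] at h5
    have h6 : 2 ^ 2 = 2 ^ finrank (ZMod 2) U := by rw [← h5]; norm_num
    exact (Nat.pow_right_injective le_rfl h6).symm
  have hcR : Nat.card (V ⧸ U) ≤ Nat.card R.toAddSubgroup := by
    have h5 : Nat.card R.toAddSubgroup = 2 ^ finrank (ZMod 2) R := card_pow R
    rw [card_quot U, h5]
    refine Nat.pow_le_pow_right (by norm_num) ?_
    have h6 := Submodule.finrank_quotient_add_finrank U
    have h7 := Submodule.finrank_sup_add_finrank_inf_eq (LinearMap.ker f1) (LinearMap.ker f2)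
    have h8 := Submodule.finrank_le (LinearMap.ker f1 ⊔ LinearMap.ker f2)
    have h9 := hker f1
    have h10 := hker f2
    rw [← hR] at h7
    omega
  set C : Set V := {0, s1, s1 + s2, s1 + s2 + s3} with hC
  have c0 : (0 : V) ∈ C := by simp [hC]
  have c1 : s1 ∈ C := by simp [hC]
  have c2 : s1 + s2 ∈ C := by simp [hC]
  have c3 : s1 + s2 + s3 ∈ C := by simp [hC]
  have r0 : Rch G C 0 0 := Rch.refl _
  have r1 : Rch G C 0 s1 := r0.step c1 hs1.1
  have r2 : Rch G C 0 (s1 + s2) := r1.step c2 (hG.add _ hs2.1)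
  have r3 : Rch G C 0 (s1 + s2 + s3) := r2.step c3 (hG.add _ hs3.1)
  have hCconn : Conn G C := by
    refine ⟨0, c0, ?_⟩
    rintro x (rfl | rfl | rfl | rfl)
    · exact r0
    · exact r1
    · exact r2
    · exact r3
  refine minor_of_translates hG hCconn R.toAddSubgroup ?_ ?_ hcR
  · intro c hc c' hc' hcc
    have e1 : f1 c = f1 c' := by
      have : f1 (c - c') = 0 := hcc.1
      rw [map_sub, sub_eq_zero] at this
      exact this
    have e2 : f2 c = f2 c' := by
      have : f2 (c - c') = 0 := hcc.2
      rw [map_sub, sub_eq_zero] at this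
      exact this
    rcases hc with rfl | rfl | rfl | rfl <;> rcases hc' with rfl | rfl | rfl | rfl <;>
      first
      | rfl
      | (exfalso
         simp only [map_add, map_zero, hf1, hf2, f12, f13, f21, f23] at e1 e2
         revert e1 e2
         decide)
  · intro r hr hr0
    have hr1 : f1 r = 0 := hr.1
    have hr2 : f2 r = 0 := hr.2
    have hrU : r - s1 ∉ U := by
      intro h
      have e : r = s1 + (r - s1) := by abel
      rcases hUeq _ h with h | h | h | h
      · rw [e, h, map_add, map_zero, hf1] at hr1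
        revert hr1
        decide
      · rw [e, h] at hr1 hr2
        simp only [map_add, hf1, hf2, f12, f13, f21, f23] at hr1 hr2
        revert hr1 hr2
        decide
      · rw [e, h] at hr1 hr2
        simp only [map_add, hf1, hf2, f12, f13, f21, f23] at hr1 hr2
        revert hr1 hr2
        decide
      · rw [e, h] at hr1 hr2
        simp only [map_add, hf1, hf2, f12, f13, f21, f23] at hr1 hr2
        revert hr1 hr2
        decide
    obtain ⟨u, hu, hadj⟩ := hit _ hrU
    have key : ∀ c ∈ C, ∀ c' ∈ C, c - c' = s1 - u → ∃ c ∈ C, ∃ c' ∈ C, G.Adj c (c' + r) := by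
      intro c hc c' hc' h
      refine ⟨c, hc, c', hc', ?_⟩
      rw [hG.adj]
      have e : c' + r - c = r - s1 + u := by
        have : c' = c - (s1 - u) := by rw [← h]; abel
        rw [this]; abel
      rw [e]
      exact hadj
    rcases hUeq u hu with rfl | rfl | rfl | rfl
    · exact key s1 c1 0 c0 (by abel)
    · refine key (s1 + s2) c2 s1 c1 ?_
      rw [hsub s1 (s1 + s2), ← add_assoc, h2, zero_add]; abel
    · refine key (s1 + s2 + s3) c3 (s1 + s2) c2 ?_
      rw [hsub s1 (s1 + s3), ← add_assoc, h2, zero_add]; abel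
    · refine key (s1 + s2 + s3) c3 0 c0 ?_
      rw [hsub s1 (s2 + s3)]; abel

end

end Pool.Agent.Run7.h644.CU
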