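import Pool.Agent.Run7.h644.CU.Mid

set_option autoImplicit false

namespace Pool.Agent.Run7.h644.CU

open Module

instance fact3 : Fact (Nat.Prime 3) := ⟨Nat.prime_three⟩

section

variable {V : Type} [AddCommGroup V] [Module (ZMod 3) V] [Finite V] {G : SimpleGraph V}

/-- Independent subgroups of order nine in characteristic three with a coset containing four
elements of the connection set. -/
theorem tiny3 (hG : TI G) (U : Submodule (ZMod 3) V)
    (hit : ∀ x, x ∉ U → ∃ u ∈ U, G.Adj 0 (x + u)) (hU : ∀ u ∈ U, ¬ G.Adj 0 u)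
    (h9 : finrank (ZMod 3) U = 2) (z : V) (S' : Set V)
    (hS' : ∀ s ∈ S', G.Adj 0 s ∧ s - z ∈ U) (hcard : 3 < S'.ncard) :
    HasMinor G (Nat.card (V ⧸ U)) := by
  classical
  obtain ⟨s1, h1S, s2, h2S, h12⟩ := (Set.one_lt_ncard (Set.toFinite S')).1 (by omega : 1 < S'.ncard)
  obtain ⟨s3, h3S, h3⟩ : ∃ s3 ∈ S', s3 - s1 ∉ Submodule.span (ZMod 3) {s2 - s1} := by
    by_contra hcon
    push Not at hcon
    have e1 : S'.ncard ≤ Nat.card (Submodule.span (ZMod 3) {s2 - s1}) := by
      refine Set.ncard_le_ncard_of_injOn (t := (Submodule.span (ZMod 3) {s2 - s1} : Set V))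
        (fun s => s - s1) (fun s hs => hcon s hs) ?_ (Set.toFinite _)
      intro x _ y _ hxy
      exact sub_left_injective hxy
    rw [card_pow] at e1
    have e2 : finrank (ZMod 3) (Submodule.span (ZMod 3) {s2 - s1}) ≤ 1 :=
      le_trans (finrank_span_le_card (R := ZMod 3) ({s2 - s1} : Set V)) (by simp)
    have e3 : 3 ^ finrank (ZMod 3) (Submodule.span (ZMod 3) {s2 - s1}) ≤ 3 ^ 1 :=
      Nat.pow_le_pow_right (by norm_num) e2
    omega
  have hs1 := hS' s1 h1S
  have hs2 := hS' s2 h2S
  have hs3 := hS' s3 h3S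
  have hd2 : s2 - s1 ∈ U := by
    have := U.sub_mem hs2.2 hs1.2
    have e : s2 - z - (s1 - z) = s2 - s1 := by abel
    rwa [e] at this
  have hd3 : s3 - s1 ∈ U := by
    have := U.sub_mem hs3.2 hs1.2
    have e : s3 - z - (s1 - z) = s3 - s1 := by abel
    rwa [e] at this
  have hs1U : s1 ∉ U := fun h => hU s1 h hs1.1
  have hne : s2 - s1 ≠ 0 := fun h => h12 (sub_eq_zero.1 h).symm
  have hUspan : Submodule.span (ZMod 3) {s2 - s1} ⊔ Submodule.span (ZMod 3) {s3 - s1} = U := by
    refine Submodule.eq_of_le_of_finrank_le ?_ ?_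
    · refine sup_le ?_ ?_
      · rw [Submodule.span_singleton_le_iff_mem]; exact hd2
      · rw [Submodule.span_singleton_le_iff_mem]; exact hd3
    · rw [finrank_sup_singleton _ h3, finrank_span_singleton hne, h9]
  -- linear independence
  have hind : ∀ i j k : ZMod 3, i • s1 + j • (s2 - s1) + k • (s3 - s1) = 0 →
      i = 0 ∧ j = 0 ∧ k = 0 := by
    intro i j k h
    have hi : i = 0 := by
      by_contra hi
      apply hs1U
      have e : s1 = i⁻¹ • (-(j • (s2 - s1) + k • (s3 - s1))) := by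
        have e2 : -(j • (s2 - s1) + k • (s3 - s1)) = i • s1 := by
          rw [neg_eq_iff_add_eq_zero, ← h]; abel
        rw [e2, smul_smul, inv_mul_cancel₀ hi, one_smul]
      rw [e]
      exact U.smul_mem _ (U.neg_mem (U.add_mem (U.smul_mem _ hd2) (U.smul_mem _ hd3)))
    rw [hi, zero_smul, zero_add] at h
    have hk : k = 0 := by
      by_contra hk
      apply h3
      have e : s3 - s1 = k⁻¹ • (-(j • (s2 - s1))) := by
        have e2 : -(j • (s2 - s1)) = k • (s3 - s1) := by
          rw [neg_eq_iff_add_eq_zero]; exact h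
        rw [e2, smul_smul, inv_mul_cancel₀ hk, one_smul]
      rw [e]
      exact Submodule.smul_mem _ _ (Submodule.neg_mem _ (Submodule.smul_mem _ _
        (Submodule.mem_span_singleton_self _)))
    rw [hk, zero_smul, add_zero] at h
    refine ⟨hi, ?_, hk⟩
    by_contra hj
    exact hne ((smul_eq_zero.1 h).resolve_left hj)
  -- functionals
  have hfun : ∀ (W : Submodule (ZMod 3) V) (v : V), v ∉ W →
      ∃ f : V →ₗ[ZMod 3] ZMod 3, f v = 1 ∧ ∀ x ∈ W, f x = 0 := by
    intro W v hv
    obtain ⟨f, hf, hW⟩ := Submodule.exists_le_ker_of_notMem hv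
    refine ⟨(f v)⁻¹ • f, ?_, ?_⟩
    · rw [LinearMap.smul_apply, smul_eq_mul, inv_mul_cancel₀ hf]
    · intro x hx
      rw [LinearMap.smul_apply, (hW hx : f x = 0), smul_zero]
  obtain ⟨f1, hf1, hf1'⟩ := hfun (Submodule.span (ZMod 3) {s2, s3 - s1}) s1 (by
    intro h
    rw [Submodule.mem_span_pair] at h
    obtain ⟨c, d, h⟩ := h
    have e := hind (c - 1) c d (by
      have e : (c - 1) • s1 + c • (s2 - s1) + d • (s3 - s1) = c • s2 + d • (s3 - s1) - s1 := by
        rw [sub_smul, smul_sub, one_smul]; abel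
      rw [e, h, sub_self])
    rw [e.2.1] at e
    exact absurd e.1 (by decide))
  obtain ⟨f2, hf2, hf2'⟩ := hfun (Submodule.span (ZMod 3) {s1, s3 - s1}) s2 (by
    intro h
    rw [Submodule.mem_span_pair] at h
    obtain ⟨c, d, h⟩ := h
    have e := hind (c - 1) (-1) d (by
      have e : (c - 1) • s1 + (-1 : ZMod 3) • (s2 - s1) + d • (s3 - s1) =
          c • s1 + d • (s3 - s1) - s2 := by
        rw [sub_smul, one_smul, neg_one_smul]; abel
      rw [e, h, sub_self])
    exact absurd e.2.1 (by decide))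
  have f12 : f1 s2 = 0 := hf1' _ (Submodule.subset_span (by simp))
  have f1r : f1 (s3 - s1) = 0 := hf1' _ (Submodule.subset_span (by simp))
  have f21 : f2 s1 = 0 := hf2' _ (Submodule.subset_span (by simp))
  have f2r : f2 (s3 - s1) = 0 := hf2' _ (Submodule.subset_span (by simp))
  set R := LinearMap.ker f1 ⊓ LinearMap.ker f2 with hR
  have hker : ∀ f : V →ₗ[ZMod 3] ZMod 3,
      finrank (ZMod 3) V ≤ finrank (ZMod 3) (LinearMap.ker f) + 1 := by
    intro f
    have h1 := LinearMap.finrank_range_add_finrank_ker f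
    have h2 := Submodule.finrank_le (LinearMap.range f)
    rw [finrank_self] at h2
    omega
  have hcR : Nat.card (V ⧸ U) ≤ Nat.card R.toAddSubgroup := by
    have h5 : Nat.card R.toAddSubgroup = 3 ^ finrank (ZMod 3) R := card_pow R
    rw [card_quot U, h5]
    refine Nat.pow_le_pow_right (by norm_num) ?_
    have h6 := Submodule.finrank_quotient_add_finrank U
    have h7 := Submodule.finrank_sup_add_finrank_inf_eq (LinearMap.ker f1) (LinearMap.ker f2)
    have h8 := Submodule.finrank_le (LinearMap.ker f1 ⊔ LinearMap.ker f2)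
    have h9 := hker f1
    have h10 := hker f2
    rw [← hR] at h7
    omega
  -- the connected set
  let g : ZMod 3 → ZMod 3 → V := fun i j => i • s1 + j • s2
  set C : Set V := {x | x = s3 - s1 ∨ ∃ i j : ZMod 3, (i ≠ 0 ∨ j ≠ 0) ∧ x = g i j} with hC
  have hgC : ∀ i j : ZMod 3, (i ≠ 0 ∨ j ≠ 0) → g i j ∈ C := fun i j h => Or.inr ⟨i, j, h, rfl⟩
  have hrC : s3 - s1 ∈ C := Or.inl rfl
  have hg1 : ∀ i j i' : ZMod 3, i' = i + 1 → G.Adj (g i j) (g i' j) := by
    rintro i j _ rfl
    have e : g (i + 1) j = g i j + s1 := by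
      show (i + 1) • s1 + j • s2 = i • s1 + j • s2 + s1
      rw [add_smul, one_smul]; abel
    rw [e]
    exact hG.add _ hs1.1
  have hg2 : ∀ i j j' : ZMod 3, j' = j + 1 → G.Adj (g i j) (g i j') := by
    rintro i j _ rfl
    have e : g i (j + 1) = g i j + s2 := by
      show i • s1 + (j + 1) • s2 = i • s1 + j • s2 + s2
      rw [add_smul, one_smul]; abel
    rw [e]
    exact hG.add _ hs2.1
  have q10 : Rch G C (g 1 0) (g 1 0) := Rch.refl _
  have q11 : Rch G C (g 1 0) (g 1 1) := q10.step (hgC _ _ (by decide)) (hg2 _ _ _ (by decide))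
  have q21 : Rch G C (g 1 0) (g 2 1) := q11.step (hgC _ _ (by decide)) (hg1 _ _ _ (by decide))
  have q01 : Rch G C (g 1 0) (g 0 1) := q21.step (hgC _ _ (by decide)) (hg1 _ _ _ (by decide))
  have q12 : Rch G C (g 1 0) (g 1 2) := q11.step (hgC _ _ (by decide)) (hg2 _ _ _ (by decide))
  have q22 : Rch G C (g 1 0) (g 2 2) := q12.step (hgC _ _ (by decide)) (hg1 _ _ _ (by decide))
  have q02 : Rch G C (g 1 0) (g 0 2) := q22.step (hgC _ _ (by decide)) (hg1 _ _ _ (by decide))
  have q20 : Rch G C (g 1 0) (g 2 0) := q22.step (hgC _ _ (by decide)) (hg2 _ _ _ (by decide))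
  have hqr : Rch G C (g 1 0) (s3 - s1) := by
    refine q20.step hrC ?_
    have e : s3 - s1 = g 2 0 + s3 := by
      show s3 - s1 = (2 : ZMod 3) • s1 + (0 : ZMod 3) • s2 + s3
      have h2 : (2 : ZMod 3) = -1 := by decide
      rw [h2, neg_one_smul, zero_smul]; abel
    rw [e]
    exact hG.add _ hs3.1
  have hqall : ∀ i j : ZMod 3, (i ≠ 0 ∨ j ≠ 0) → Rch G C (g 1 0) (g i j) := by
    have h3' : ∀ i : ZMod 3, i = 0 ∨ i = 1 ∨ i = 2 := by decide
    intro i j hij
    rcases h3' i with rfl | rfl | rfl <;> rcases h3' j with rfl | rfl | rfl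
    · exact absurd hij (by decide)
    · exact q01
    · exact q02
    · exact q10
    · exact q11
    · exact q12
    · exact q20
    · exact q21
    · exact q22
  have hCconn : Conn G C := by
    refine ⟨g 1 0, hgC _ _ (by decide), ?_⟩
    rintro x (rfl | ⟨i, j, hij, rfl⟩)
    · exact hqr
    · exact hqall i j hij
  have hf1g : ∀ i j, f1 (g i j) = i := by
    intro i j
    show f1 (i • s1 + j • s2) = i
    rw [map_add, map_smul, map_smul, hf1, f12, smul_eq_mul, smul_eq_mul, mul_one, mul_zero,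
      add_zero]
  have hf2g : ∀ i j, f2 (g i j) = j := by
    intro i j
    show f2 (i • s1 + j • s2) = j
    rw [map_add, map_smul, map_smul, hf2, f21, smul_eq_mul, smul_eq_mul, mul_one, mul_zero,
      zero_add]
  refine minor_of_translates hG hCconn R.toAddSubgroup ?_ ?_ hcR
  · intro c hc c' hc' hcc
    have e1 : f1 c = f1 c' := by
      have : f1 (c - c') = 0 := hcc.1
      rw [map_sub, sub_eq_zero] at this
      exact this
    have e2 : f2 c = f2 c' := by
      have : f2 (c - c') = 0 := hcc.2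
      rw [map_sub, sub_eq_zero] at this
      exact this
    rcases hc with rfl | ⟨i, j, hij, rfl⟩ <;> rcases hc' with rfl | ⟨i', j', hij', rfl⟩
    · rfl
    · exfalso
      rw [f1r, hf1g] at e1
      rw [f2r, hf2g] at e2
      rcases hij' with h | h
      · exact h e1.symm
      · exact h e2.symm
    · exfalso
      rw [f1r, hf1g] at e1
      rw [f2r, hf2g] at e2
      rcases hij with h | h
      · exact h e1
      · exact h e2
    · rw [hf1g, hf1g] at e1
      rw [hf2g, hf2g] at e2
      rw [e1, e2]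
  · intro r hr hr0
    have hr1 : f1 r = 0 := hr.1
    have hr2 : f2 r = 0 := hr.2
    have hUel : ∀ u ∈ U, ∃ α β : ZMod 3, u = α • (s2 - s1) + β • (s3 - s1) := by
      intro u hu
      rw [← hUspan] at hu
      obtain ⟨x, hx, y, hy, rfl⟩ := Submodule.mem_sup.1 hu
      obtain ⟨α, rfl⟩ := Submodule.mem_span_singleton.1 hx
      obtain ⟨β, rfl⟩ := Submodule.mem_span_singleton.1 hy
      exact ⟨α, β, rfl⟩
    have hrU : r - s1 ∉ U := by
      intro h
      obtain ⟨α, β, he⟩ := hUel _ h
      have e1 : f1 (r - s1) = -α := by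
        rw [he, map_add, map_smul, map_smul, map_sub, f12, hf1, f1r]
        simp
      have e2 : f2 (r - s1) = α := by
        rw [he, map_add, map_smul, map_smul, map_sub, hf2, f21, f2r]
        simp
      rw [map_sub, hr1, hf1] at e1
      rw [map_sub, hr2, f21] at e2
      rw [← e2] at e1
      revert e1
      decide
    obtain ⟨u, hu, hadj⟩ := hit _ hrU
    have key : ∀ c ∈ C, ∀ c' ∈ C, c - c' = s1 - u → ∃ c ∈ C, ∃ c' ∈ C, G.Adj c (c' + r) := by
      intro c hc c' hc' h
      refine ⟨c, hc, c', hc', ?_⟩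
      rw [hG.adj]
      have e : c' + r - c = r - s1 + u := by
        have : c' = c - (s1 - u) := by rw [← h]; abel
        rw [this]; abel
      rw [e]
      exact hadj
    obtain ⟨α, β, rfl⟩ := hUel u hu
    have hpi : s1 - (α • (s2 - s1) + β • (s3 - s1)) = g (1 + α) (-α) - β • (s3 - s1) := by
      show _ = (1 + α) • s1 + (-α) • s2 - β • (s3 - s1)
      rw [add_smul, one_smul, neg_smul, smul_sub]; abel
    have hnz0 : ∀ α : ZMod 3, (1 + α ≠ 0 ∨ -α ≠ 0) := by decide
    have hnz := hnz0 α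
    have hb0 : ∀ β : ZMod 3, β = 0 ∨ β = 1 ∨ β = -1 := by decide
    have hb3 := hb0 β
    rcases hb3 with rfl | rfl | rfl
    · refine key (g (-(1 + α)) (-(-α))) (hgC _ _ ?_) (g (1 + α) (-α)) (hgC _ _ hnz) ?_
      · rcases hnz with h | h
        · exact Or.inl (neg_ne_zero.2 h)
        · exact Or.inr (neg_ne_zero.2 h)
      · rw [hpi, zero_smul, sub_zero]
        show (-(1 + α)) • s1 + (-(-α)) • s2 - ((1 + α) • s1 + (-α) • s2) =
          (1 + α) • s1 + (-α) • s2
        have e3 : ∀ (c : ZMod 3) (x : V), (-c) • x = c • x + c • x := by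
          intro c x
          rw [← add_smul]
          congr 1
          revert c
          decide
        rw [e3 (1 + α) s1, e3 (-α) s2]
        abel
    · refine key (g (1 + α) (-α)) (hgC _ _ hnz) (s3 - s1) hrC ?_
      rw [hpi, one_smul]
    · refine key (s3 - s1) hrC (g (-(1 + α)) (-(-α))) (hgC _ _ ?_) ?_
      · rcases hnz with h | h
        · exact Or.inl (neg_ne_zero.2 h)
        · exact Or.inr (neg_ne_zero.2 h)
      · rw [hpi, neg_one_smul]
        show s3 - s1 - ((-(1 + α)) • s1 + (-(-α)) • s2) =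
          (1 + α) • s1 + (-α) • s2 - -(s3 - s1)
        rw [neg_smul (1 + α) s1, neg_smul (-α) s2]
        abel

end

end Pool.Agent.Run7.h644.CU
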