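import Pool.Agent.Run7.h644.CU.Large
import Pool.Agent.Run7.h644.CU.Tiny
import Pool.Agent.Run7.h644.CU.Tiny3

set_option autoImplicit false

namespace Pool.Agent.Run7.h644.CU

open Module

theorem zmod_small (p : ℕ) (hp : p = 2 ∨ p = 3) : ∀ c : ZMod p, c = 0 ∨ c = 1 ∨ c = -1 := by
  rcases hp with rfl | rfl
  · decide
  · decide

theorem HasMinor.mono {V : Type} {G : SimpleGraph V} {k m : ℕ} (h : k ≤ m) (hm : HasMinor G m) :
    HasMinor G k := by
  obtain ⟨f, h1, h2, h3⟩ := hm
  refine ⟨fun i => f (Fin.castLE h i), fun i => h1 _, fun i j hij => h2 _ _ ?_,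
    fun i j hij => h3 _ _ ?_⟩
  · exact fun h' => hij (Fin.castLE_injective h h')
  · exact fun h' => hij (Fin.castLE_injective h h')

theorem closure_top {V : Type} [AddCommGroup V] {G : SimpleGraph V} (hG : TI G)
    (hconn : G.Connected) : AddSubgroup.closure {s | G.Adj 0 s} = ⊤ := by
  have key : ∀ (u v : V) (w : G.Walk u v), u ∈ AddSubgroup.closure {s | G.Adj 0 s} →
      v ∈ AddSubgroup.closure {s | G.Adj 0 s} := by
    intro u v w
    induction w with
    | nil => exact id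
    | @cons a b c h _ ih =>
      intro ha
      apply ih
      have h1 : b = a + (b - a) := by abel
      rw [h1]
      exact AddSubgroup.add_mem _ ha (AddSubgroup.subset_closure ((hG.adj a b).1 h))
  rw [eq_top_iff]
  intro x _
  obtain ⟨w⟩ := hconn.preconnected 0 x
  exact key 0 x w (AddSubgroup.zero_mem _)

section

variable {p : ℕ} [Fact p.Prime] {V : Type} [AddCommGroup V] [Module (ZMod p) V] [Finite V]
  {G : SimpleGraph V}

theorem card_mul (U : Submodule (ZMod p) V) : Nat.card V = Nat.card U * Nat.card (V ⧸ U) :=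
  Submodule.card_eq_card_quotient_mul_card U

/-- Pigeonhole over the cosets. -/
theorem pigeon (U : Submodule (ZMod p) V) (hU : ∀ u ∈ U, ¬ G.Adj 0 u) (k : ℕ)
    (h : Nat.card V < k * {s | G.Adj 0 s}.ncard + Nat.card U) :
    ∃ z : V, Nat.card U < {s | G.Adj 0 s ∧ s - z ∈ U}.ncard * k := by
  classical
  by_contra hcon
  push Not at hcon
  have : Finite (V ⧸ U) := Finite.of_surjective U.mkQ (Submodule.mkQ_surjective U)
  have := Fintype.ofFinite (V ⧸ U)
  have hfin : ({s | G.Adj 0 s} : Set V).Finite := Set.toFinite _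
  set S : Finset V := hfin.toFinset with hS
  have hSc : {s | G.Adj 0 s}.ncard = S.card := Set.ncard_eq_toFinset_card _ hfin
  have h1 : S.card = ∑ y ∈ (Finset.univ : Finset (V ⧸ U)), (S.filter (fun s => U.mkQ s = y)).card :=
    Finset.card_eq_sum_card_fiberwise (fun _ _ => Finset.mem_coe.2 (Finset.mem_univ _))
  have h2 : ∑ y ∈ (Finset.univ : Finset (V ⧸ U)), (S.filter (fun s => U.mkQ s = y)).card * k ≤
      (Fintype.card (V ⧸ U) - 1) * Nat.card U := by
    rw [← Finset.add_sum_erase _ _ (Finset.mem_univ (0 : V ⧸ U))]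
    have h3 : (S.filter (fun s => U.mkQ s = 0)).card = 0 := by
      rw [Finset.card_eq_zero, Finset.filter_eq_empty_iff]
      intro s hs hs0
      rw [hS, Set.Finite.mem_toFinset] at hs
      rw [Submodule.mkQ_apply, Submodule.Quotient.mk_eq_zero] at hs0
      exact hU s hs0 hs
    rw [h3, zero_mul, zero_add]
    refine le_trans (Finset.sum_le_card_nsmul _ _ (Nat.card U) ?_) ?_
    · intro y _
      obtain ⟨z, rfl⟩ := Submodule.mkQ_surjective U y
      refine le_trans (Nat.mul_le_mul_right k ?_) (hcon z)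
      rw [← Set.ncard_coe_finset]
      refine Set.ncard_le_ncard ?_ (Set.toFinite _)
      intro s hs
      rw [Finset.mem_coe, Finset.mem_filter, hS, Set.Finite.mem_toFinset] at hs
      refine ⟨hs.1, ?_⟩
      rw [← Submodule.Quotient.mk_eq_zero, ← Submodule.mkQ_apply, map_sub, hs.2, sub_self]
    · rw [Finset.card_erase_of_mem (Finset.mem_univ _), Finset.card_univ, smul_eq_mul]
  rw [← Finset.sum_mul, ← h1] at h2
  have h4 := card_mul U
  rw [Nat.card_eq_fintype_card (α := V ⧸ U)] at h4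
  have h5 : 0 < Fintype.card (V ⧸ U) := Fintype.card_pos
  obtain ⟨m, hm⟩ : ∃ m, Fintype.card (V ⧸ U) = m + 1 := ⟨Fintype.card (V ⧸ U) - 1, by omega⟩
  rw [hm] at h4 h2
  rw [hSc, h4] at h
  have h6 : m + 1 - 1 = m := by omega
  rw [h6] at h2
  nlinarith

/-- The size condition. -/
def Lg (p : ℕ) (N d m : ℕ) : Prop :=
  p ^ 52 ≤ m ∨ (∃ c, p ^ (2 * c + 3) ≤ m ∧ N < p ^ (c + 1) * d + m) ∨
    (p ≤ 3 ∧ p ^ 2 ≤ m ∧ N < p * d + m)

theorem Lg.mono {p N d m m' : ℕ} (h : Lg p N d m) (hm : m ≤ m') : Lg p N d m' := by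
  rcases h with h | ⟨c, h1, h2⟩ | ⟨h1, h2, h3⟩
  · exact Or.inl (h.trans hm)
  · exact Or.inr (Or.inl ⟨c, h1.trans hm, by omega⟩)
  · exact Or.inr (Or.inr ⟨h1, h2.trans hm, by omega⟩)

theorem core (hG : TI G) (hconn : G.Connected) (U : Submodule (ZMod p) V)
    (hU : ∀ u ∈ U, ¬ G.Adj 0 u) (hit : ∀ x, x ∉ U → ∃ u ∈ U, G.Adj 0 (x + u))
    (h : Lg p (Nat.card V) {s | G.Adj 0 s}.ncard (Nat.card U)) :
    HasMinor G (Nat.card (V ⧸ U)) := by
  have hp : 2 ≤ p := (Fact.out : p.Prime).two_le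
  have hspan := closure_top hG hconn
  have hcU := card_pow U
  have hpow : ∀ k, p ^ k ≤ Nat.card U → k ≤ finrank (ZMod p) U := by
    intro k hk
    rw [hcU] at hk
    exact (Nat.pow_le_pow_iff_right (by omega)).1 hk
  rcases h with h | ⟨c, h1, h2⟩ | ⟨h1, h2, h3⟩
  · have ha := hpow 52 h
    by_cases hab : finrank (ZMod p) U ≤ finrank (ZMod p) (V ⧸ U)
    · exact main_large hG U hU hit hspan ha hab
    · have hn := Submodule.finrank_quotient_add_finrank U
      rw [card_quot U]
      exact cross hG hspan _ (by omega)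
  · obtain ⟨z, hz⟩ := pigeon U hU _ h2
    rw [hcU] at hz
    exact mid_dense hG U hU hit hspan c (hpow _ h1) z _ (fun s hs => hs) hz
  · obtain ⟨z, hz⟩ := pigeon U hU _ h3
    rw [hcU] at hz
    have ha := hpow 2 h2
    by_cases ha3 : 3 ≤ finrank (ZMod p) U
    · exact mid_dense hG U hU hit hspan 0 ha3 z _ (fun s hs => hs) (by
        rw [zero_add, pow_one]; exact hz)
    · have ha2 : finrank (ZMod p) U = 2 := by omega
      rw [ha2] at hz hcU
      have hp23 : p = 2 ∨ p = 3 := by omega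
      rcases hp23 with rfl | rfl
      · refine tiny hG U hU hit (by rw [hcU]; norm_num) z {s | G.Adj 0 s ∧ s - z ∈ U}
          (fun s hs => hs) ?_
        omega
      · refine tiny3 hG U hit hU ha2 z {s | G.Adj 0 s ∧ s - z ∈ U} (fun s hs => hs) ?_
        omega

/-- Extension to a maximal independent subgroup. -/
theorem extend (hG : TI G) (hp3 : p ≤ 3) (U0 : Submodule (ZMod p) V)
    (hU0 : ∀ u ∈ U0, ¬ G.Adj 0 u) :
    ∃ U : Submodule (ZMod p) V, U0 ≤ U ∧ (∀ u ∈ U, ¬ G.Adj 0 u) ∧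
      (∀ x, x ∉ U → ∃ u ∈ U, G.Adj 0 (x + u)) := by
  have hp : 2 ≤ p := (Fact.out : p.Prime).two_le
  have : Finite (Submodule (ZMod p) V) :=
    Finite.of_injective (fun U : Submodule (ZMod p) V => (U : Set V)) SetLike.coe_injective
  obtain ⟨U, hle, hmax⟩ := (Set.toFinite {U : Submodule (ZMod p) V | ∀ u ∈ U, ¬ G.Adj 0 u}).exists_le_maximal
    (show U0 ∈ {U : Submodule (ZMod p) V | ∀ u ∈ U, ¬ G.Adj 0 u} from hU0)
  refine ⟨U, hle, hmax.1, ?_⟩
  intro x hx
  by_contra hcon
  push Not at hcon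
  have h1 : ∀ u ∈ U ⊔ Submodule.span (ZMod p) {x}, ¬ G.Adj 0 u := by
    intro y hy
    obtain ⟨u, hu, t, ht, rfl⟩ := Submodule.mem_sup.1 hy
    obtain ⟨c, rfl⟩ := Submodule.mem_span_singleton.1 ht
    have hc : c = 0 ∨ c = 1 ∨ c = -1 := zmod_small p (by omega) c
    rcases hc with rfl | rfl | rfl
    · rw [zero_smul, add_zero]
      exact hmax.1 u hu
    · rw [one_smul, add_comm]
      exact hcon u hu
    · intro h
      apply hcon (-u) (U.neg_mem hu)
      have h2 := hG.neg h
      rw [neg_one_smul] at h2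
      have h3 : -(u + -x) = x + -u := by abel
      rw [h3] at h2
      exact h2
  have h2 := hmax.2 (y := U ⊔ Submodule.span (ZMod p) {x}) h1 le_sup_left
  exact hx (h2 (Submodule.mem_sup_right (Submodule.mem_span_singleton_self x)))

theorem hadwiger_of (hG : TI G) (hconn : G.Connected) (hp3 : p ≤ 3) (U0 : Submodule (ZMod p) V)
    (hU0 : ∀ u ∈ U0, ¬ G.Adj 0 u)
    (h : Lg p (Nat.card V) {s | G.Adj 0 s}.ncard (Nat.card U0)) (k : ℕ)
    (hk : ¬ G.Colorable k) : HasMinor G (k + 1) := by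
  obtain ⟨U, hle, hU, hit⟩ := extend hG hp3 U0 hU0
  have hcard : Nat.card U0 ≤ Nat.card U := by
    rw [card_pow, card_pow]
    exact Nat.pow_le_pow_right (Fact.out : p.Prime).pos (Submodule.finrank_mono hle)
  have hm := core hG hconn U hU hit (h.mono hcard)
  refine HasMinor.mono ?_ hm
  by_contra hcon
  push Not at hcon
  exact hk ((colorable_quotient hG U.toAddSubgroup hU).mono (Nat.lt_succ_iff.1 hcon))

/-- Small degree gives a large maximal independent subgroup. -/
theorem hadwiger_sparse (hG : TI G) (hconn : G.Connected) (hp3 : p ≤ 3)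
    (h : ({s | G.Adj 0 s}.ncard + 1) * p ^ 52 ≤ Nat.card V) (k : ℕ)
    (hk : ¬ G.Colorable k) : HasMinor G (k + 1) := by
  obtain ⟨U, -, hU, hit⟩ := extend (p := p) hG hp3 ⊥ (by
    intro u hu
    rw [Submodule.mem_bot] at hu
    rw [hu]
    exact G.loopless.irrefl 0)
  refine hadwiger_of hG hconn hp3 U hU (Or.inl ?_) k hk
  have : Finite (V ⧸ U) := Finite.of_surjective U.mkQ (Submodule.mkQ_surjective U)
  have h1 : Nat.card (V ⧸ U) ≤ {s | G.Adj 0 s}.ncard + 1 := by
    have h2 : (Set.univ : Set (V ⧸ U)) = U.mkQ '' (insert 0 {s | G.Adj 0 s}) := by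
      symm
      rw [Set.eq_univ_iff_forall]
      intro y
      obtain ⟨x, rfl⟩ := Submodule.mkQ_surjective U y
      by_cases hx : x ∈ U
      · refine ⟨0, Set.mem_insert _ _, ?_⟩
        rw [map_zero, Submodule.mkQ_apply, eq_comm, Submodule.Quotient.mk_eq_zero]
        exact hx
      · obtain ⟨u, hu, hadj⟩ := hit x hx
        refine ⟨x + u, Set.mem_insert_of_mem _ hadj, ?_⟩
        have h3 : U.mkQ u = 0 := by
          rw [Submodule.mkQ_apply, Submodule.Quotient.mk_eq_zero]; exact hu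
        rw [map_add, h3, add_zero]
    rw [← Set.ncard_univ, h2]
    refine le_trans (Set.ncard_image_le (Set.toFinite _)) ?_
    exact Set.ncard_insert_le _ _
  have h2 := card_mul U
  have h3 : 0 < {s | G.Adj 0 s}.ncard + 1 := Nat.succ_pos _
  have h4 : ({s | G.Adj 0 s}.ncard + 1) * p ^ 52 ≤ ({s | G.Adj 0 s}.ncard + 1) * Nat.card U := by
    refine le_trans h ?_
    rw [h2, mul_comm]
    exact Nat.mul_le_mul_right _ h1
  exact Nat.le_of_mul_le_mul_left h4 h3

end

/-- Characteristic two, dense. -/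
theorem hadwiger_dense {V : Type} [AddCommGroup V] [Module (ZMod 2) V] [Finite V]
    {G : SimpleGraph V} (hG : TI G) (hconn : G.Connected)
    (hα : ∃ x y z : V, x ≠ y ∧ y ≠ z ∧ x ≠ z ∧ ¬ G.Adj x y ∧ ¬ G.Adj y z ∧ ¬ G.Adj x z)
    (hd : Nat.card V ≤ 2 * {s | G.Adj 0 s}.ncard + 2) (k : ℕ)
    (hk : ¬ G.Colorable k) : HasMinor G (k + 1) := by
  obtain ⟨x, y, z, hxy, hyz, hxz, h1, h2, h3⟩ := hα
  have hy0 : y - x ≠ 0 := sub_ne_zero.2 hxy.symm
  have hz0 : z - x ≠ 0 := sub_ne_zero.2 hxz.symm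
  have hmem : ∀ w ∈ Submodule.span (ZMod 2) ({y - x} : Set V), w = 0 ∨ w = y - x := by
    intro w hw
    obtain ⟨c, rfl⟩ := Submodule.mem_span_singleton.1 hw
    have hc : ∀ c : ZMod 2, c = 0 ∨ c = 1 := by decide
    rcases hc c with rfl | rfl
    · left; rw [zero_smul]
    · right; rw [one_smul]
  have hz : z - x ∉ Submodule.span (ZMod 2) ({y - x} : Set V) := by
    intro h
    rcases hmem _ h with h | h
    · exact hz0 h
    · exact hyz (sub_left_injective h).symm
  have hneg : ∀ w : V, -w = w := fun w => by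
    rw [neg_eq_iff_add_eq_zero]
    have : (2 : ZMod 2) • w = w + w := two_smul _ w
    rw [← this]
    have h : (2 : ZMod 2) = 0 := rfl
    rw [h, zero_smul]
  refine hadwiger_of (p := 2) hG hconn (by norm_num)
    (Submodule.span (ZMod 2) {y - x} ⊔ Submodule.span (ZMod 2) {z - x}) ?_ ?_ k hk
  · intro w hw
    obtain ⟨a, ha, b, hb, rfl⟩ := Submodule.mem_sup.1 hw
    have hb' : b = 0 ∨ b = z - x := by
      obtain ⟨c, rfl⟩ := Submodule.mem_span_singleton.1 hb
      have hc : ∀ c : ZMod 2, c = 0 ∨ c = 1 := by decide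
      rcases hc c with rfl | rfl
      · left; rw [zero_smul]
      · right; rw [one_smul]
    rcases hmem a ha with rfl | rfl <;> rcases hb' with rfl | rfl
    · rw [add_zero]; exact G.loopless.irrefl 0
    · rw [zero_add, ← hG.adj]; exact h3
    · rw [add_zero, ← hG.adj]; exact h1
    · have e : y - x + (z - x) = z - y := by
        have e1 : y - x + (z - x) = (z - y) + (y - x - (x - y)) := by abel
        have e2 : y - x - (x - y) = 0 := by
          rw [← neg_sub y x, hneg, sub_self]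
        rw [e1, e2, add_zero]
      rw [e, ← hG.adj]; exact h2
  · have hc : Nat.card (Submodule.span (ZMod 2) {y - x} ⊔ Submodule.span (ZMod 2) {z - x} :
        Submodule (ZMod 2) V) = 4 := by
      rw [card_pow, finrank_sup_singleton _ hz, finrank_span_singleton hy0]
      norm_num
    right; right
    rw [hc]
    refine ⟨by norm_num, by norm_num, ?_⟩
    omega

section

variable {p : ℕ} [Fact p.Prime] {V : Type} [AddCommGroup V] [Module (ZMod p) V] [Finite V]
  {G : SimpleGraph V}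

/-- A subgroup as a subspace. -/
def toSub (U : AddSubgroup V) : Submodule (ZMod p) V :=
  { U with smul_mem' := fun c _ hx => ZMod.smul_mem (K := U) hx c }

theorem core' (hG : TI G) (hconn : G.Connected) (U : AddSubgroup V)
    (hU : ∀ u ∈ U, ¬ G.Adj 0 u) (hit : ∀ x, x ∉ U → ∃ u ∈ U, G.Adj 0 (x + u))
    (h : Lg p (Nat.card V) {s | G.Adj 0 s}.ncard (Nat.card U)) :
    HasMinor G U.index ∧ G.Colorable U.index :=
  ⟨core (p := p) hG hconn (toSub U) hU hit h, colorable_quotient hG U hU⟩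

theorem hadwiger_of' (hG : TI G) (hconn : G.Connected) (hp3 : p ≤ 3) (U : AddSubgroup V)
    (hU : ∀ u ∈ U, ¬ G.Adj 0 u)
    (h : Lg p (Nat.card V) {s | G.Adj 0 s}.ncard (Nat.card U)) (k : ℕ)
    (hk : ¬ G.Colorable k) : HasMinor G (k + 1) :=
  hadwiger_of (p := p) hG hconn hp3 (toSub U) hU h k hk

end

end Pool.Agent.Run7.h644.CU
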