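import Pool.Agent.Run7.h644.CU.Sparse

set_option autoImplicit false

namespace Pool.Agent.Run7.h644.CU

open Module

section

variable {p : ℕ} [Fact p.Prime] {V : Type} [AddCommGroup V] [Module (ZMod p) V] [Finite V]
  {G : SimpleGraph V}

/-- The extra points. -/
def FF (s1 s2 : V → V) (B : Set V) : Set V :=
  {0} ∪ (s1 '' B ∪ (fun u => s1 u + s2 u) '' B)

theorem FF_card (s1 s2 : V → V) (B : Finset V) :
    (FF s1 s2 (B : Set V)).ncard ≤ 1 + 2 * B.card := by
  have h1 := Set.ncard_union_le {(0 : V)} (s1 '' (B : Set V) ∪ (fun u => s1 u + s2 u) '' (B : Set V))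
  have h2 := Set.ncard_union_le (s1 '' (B : Set V)) ((fun u => s1 u + s2 u) '' (B : Set V))
  have h3 := Set.ncard_image_le (f := s1) (s := (B : Set V)) (Set.toFinite _)
  have h4 := Set.ncard_image_le (f := fun u => s1 u + s2 u) (s := (B : Set V)) (Set.toFinite _)
  rw [Set.ncard_coe_finset] at h3 h4
  rw [Set.ncard_singleton] at h1
  unfold FF
  omega

/-- The set `{u + f}` is connected. -/
theorem PP_conn (hG : TI G) (s1 s2 s3 : V → V) (B : Set V)
    (h1 : ∀ u ∈ B, G.Adj 0 (s1 u)) (h2 : ∀ u ∈ B, G.Adj 0 (s2 u))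
    (h3 : ∀ u ∈ B, G.Adj 0 (s3 u) ∨ s3 u = 0) (hs : ∀ u ∈ B, u = s1 u + s2 u + s3 u) :
    ∀ x ∈ PP (Submodule.span (ZMod p) B) (FF s1 s2 B),
      Rch G (PP (Submodule.span (ZMod p) B) (FF s1 s2 B)) 0 x := by
  set X := Submodule.span (ZMod p) B with hX
  set P := PP X (FF s1 s2 B) with hP
  have hX0 : ∀ y ∈ X, y ∈ P := fun y hy => ⟨y, hy, 0, Or.inl rfl, by rw [add_zero]⟩
  have hs1 : ∀ u ∈ B, ∀ y ∈ X, y + s1 u ∈ P := fun u hu y hy =>
    ⟨y, hy, s1 u, Or.inr (Or.inl ⟨u, hu, rfl⟩), rfl⟩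
  have hs2 : ∀ u ∈ B, ∀ y ∈ X, y + s1 u + s2 u ∈ P := fun u hu y hy =>
    ⟨y, hy, s1 u + s2 u, Or.inr (Or.inr ⟨u, hu, rfl⟩), by rw [add_assoc]⟩
  have hr1 : ∀ u ∈ B, ∀ y ∈ X, Rch G P y (y + s1 u) := fun u hu y hy =>
    (Rch.refl y).step (hs1 u hu y hy) (hG.add y (h1 u hu))
  have hr2 : ∀ u ∈ B, ∀ y ∈ X, Rch G P y (y + s1 u + s2 u) := fun u hu y hy =>
    (hr1 u hu y hy).step (hs2 u hu y hy) (hG.add _ (h2 u hu))
  have hr3 : ∀ u ∈ B, ∀ y ∈ X, Rch G P y (y + u) := by
    intro u hu y hy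
    have hyu : y + u ∈ X := X.add_mem hy (Submodule.subset_span hu)
    have he : y + u = y + s1 u + s2 u + s3 u := by
      conv_lhs => rw [hs u hu]
      abel
    rcases h3 u hu with h | h
    · have := (hr2 u hu y hy).step (z := y + s1 u + s2 u + s3 u) (by rw [← he]; exact hX0 _ hyu)
        (hG.add _ h)
      rw [he]
      exact this
    · rw [he, h, add_zero]
      exact hr2 u hu y hy
  have hspan : ∀ x ∈ X, ∀ y ∈ X, Rch G P y (y + x) := by
    intro x hx
    rw [hX] at hx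
    induction hx using Submodule.span_induction with
    | mem u hu => exact hr3 u hu
    | zero =>
      intro y _
      rw [add_zero]
      exact Rch.refl y
    | add a b ha hb iha ihb =>
      intro y hy
      rw [← add_assoc]
      exact (iha y hy).trans (ihb _ (X.add_mem hy ha))
    | smul c a ha iha =>
      intro y hy
      have key : ∀ n : ℕ, Rch G P y (y + (n : ZMod p) • a) := by
        intro n
        induction n with
        | zero => rw [Nat.cast_zero, zero_smul, add_zero]; exact Rch.refl y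
        | succ n ih =>
          rw [Nat.cast_succ, add_smul, one_smul, ← add_assoc]
          exact ih.trans (iha _ (X.add_mem hy (X.smul_mem _ ha)))
      have := key c.val
      rwa [ZMod.natCast_zmod_val] at this
  rintro x ⟨u, hu, f, hf, rfl⟩
  have h0 : Rch G P 0 u := by
    have := hspan u hu 0 X.zero_mem
    rwa [zero_add] at this
  rcases hf with hf | ⟨w, hw, rfl⟩ | ⟨w, hw, rfl⟩
  · rw [Set.mem_singleton_iff] at hf
    rw [hf, add_zero]
    exact h0
  · exact h0.trans (hr1 w hw u hu)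
  · have := h0.trans (hr2 w hw u hu)
    rwa [add_assoc] at this

theorem main_large (hG : TI G) (U : Submodule (ZMod p) V) (hU : ∀ u ∈ U, ¬ G.Adj 0 u)
    (hit : ∀ x, x ∉ U → ∃ u ∈ U, G.Adj 0 (x + u))
    (hspan : AddSubgroup.closure {s | G.Adj 0 s} = ⊤)
    (ha : 52 ≤ finrank (ZMod p) U) (hab : finrank (ZMod p) U ≤ finrank (ZMod p) (V ⧸ U)) :
    HasMinor G (Nat.card (V ⧸ U)) := by
  classical
  have hp : 2 ≤ p := (Fact.out : p.Prime).two_le
  set a := finrank (ZMod p) U with hadef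
  set b := finrank (ZMod p) (V ⧸ U) with hbdef
  have hn : finrank (ZMod p) V = a + b := by
    have := Submodule.finrank_quotient_add_finrank U
    omega
  have hcardV : Nat.card V = p ^ (a + b) := by
    have := Fintype.ofFinite V
    rw [Nat.card_eq_fintype_card, Module.card_eq_pow_finrank (K := ZMod p), ZMod.card, hn]
  have hcardQ : ∀ T : Submodule (ZMod p) V, Nat.card (V ⧸ T) = p ^ finrank (ZMod p) (V ⧸ T) := by
    intro T
    haveI : Finite (V ⧸ T) := Finite.of_surjective T.mkQ (Submodule.mkQ_surjective T)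
    have := Fintype.ofFinite (V ⧸ T)
    rw [Nat.card_eq_fintype_card, Module.card_eq_pow_finrank (K := ZMod p), ZMod.card]
  -- the basis
  obtain ⟨B, hBD, hBc, hBs, -⟩ :=
    Submodule.exists_finset_span_eq_linearIndepOn (ZMod p) (Del G U)
  rw [span_del hG U hU hit hspan] at hBc hBs
  have hex : ∀ u : V, ∃ s : V × (V × V), u ∈ B → (G.Adj 0 s.1 ∧ G.Adj 0 s.2.1 ∧
      (G.Adj 0 s.2.2 ∨ s.2.2 = 0) ∧ u = s.1 + s.2.1 + s.2.2) := by
    intro u
    by_cases hu : u ∈ B
    · obtain ⟨-, t1, t2, t3, h1, h2, h3, h4⟩ := hBD hu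
      exact ⟨(t1, (t2, t3)), fun _ => ⟨h1, h2, h3, h4⟩⟩
    · exact ⟨0, fun h => absurd h hu⟩
  choose s hs using hex
  set s1 : V → V := fun u => (s u).1 with hs1
  set s2 : V → V := fun u => (s u).2.1 with hs2
  set s3 : V → V := fun u => (s u).2.2 with hs3
  obtain ⟨B1, hB1, hB1c⟩ := Finset.exists_subset_card_eq (s := B) (n := a / 2)
    (by rw [hBc]; omega)
  set B2 := B \ B1 with hB2
  have hB2c : B2.card = a - a / 2 := by
    rw [hB2, Finset.card_sdiff_of_subset hB1, hB1c, hBc]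
  have hconn : ∀ B' : Finset V, B' ⊆ B →
      ∀ x ∈ PP (Submodule.span (ZMod p) (B' : Set V)) (FF s1 s2 (B' : Set V)),
      Rch G (PP (Submodule.span (ZMod p) (B' : Set V)) (FF s1 s2 (B' : Set V))) 0 x := by
    intro B' hB'
    exact PP_conn hG s1 s2 s3 _ (fun u hu => (hs u (hB' hu)).1) (fun u hu => (hs u (hB' hu)).2.1)
      (fun u hu => (hs u (hB' hu)).2.2.1) (fun u hu => (hs u (hB' hu)).2.2.2)
  set U1 := Submodule.span (ZMod p) (B1 : Set V) with hU1
  set U2 := Submodule.span (ZMod p) (B2 : Set V) with hU2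
  set F1 := FF s1 s2 (B1 : Set V) with hF1
  set F2 := FF s1 s2 (B2 : Set V) with hF2
  have hU12 : U1 ⊔ U2 = U := by
    rw [hU1, hU2, ← Submodule.span_union, ← hBs]
    congr 1
    rw [hB2, ← Finset.coe_union, Finset.union_sdiff_of_subset hB1]
  have hU1U : U1 ≤ U := by rw [← hU12]; exact le_sup_left
  have hU2U : U2 ≤ U := by rw [← hU12]; exact le_sup_right
  have hF1c : F1.ncard ≤ a + 2 := le_trans (FF_card s1 s2 B1) (by omega)
  have hF2c : F2.ncard ≤ a + 2 := le_trans (FF_card s1 s2 B2) (by omega)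
  have hd1 : finrank (ZMod p) U1 ≤ a - a / 2 := by
    have : finrank (ZMod p) (Submodule.span (ZMod p) (B1 : Set V)) ≤ B1.card :=
      finrank_span_finset_le_card (R := ZMod p) B1
    rw [← hU1] at this
    omega
  have hd2 : finrank (ZMod p) U2 ≤ a - a / 2 := by
    have : finrank (ZMod p) (Submodule.span (ZMod p) (B2 : Set V)) ≤ B2.card :=
      finrank_span_finset_le_card (R := ZMod p) B2
    rw [← hU2] at this
    omega
  have h0F1 : (0 : V) ∈ F1 := Or.inl rfl
  have h0F2 : (0 : V) ∈ F2 := Or.inl rfl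
  set q := a / 4 with hq
  set κ := a - a / 2 + q with hκ
  set δ := a / 2 - q with hδ
  have hnum : 1 + 2 * ((a + 2) * (a + 2)) ≤ p ^ q := by
    have h1 := num a ha
    have h2 : 2 ^ q ≤ p ^ q := Nat.pow_le_pow_left hp q
    rw [pow_two] at h1
    exact le_trans h1 h2
  -- the vertex `v`
  have hDDc : ∀ (X : Submodule (ZMod p) V) (F F' : Set V), finrank (ZMod p) X ≤ a - a / 2 →
      F.ncard ≤ a + 2 → F'.ncard ≤ a + 2 →
      (DD X F F').ncard ≤ p ^ (a - a / 2) * ((a + 2) * (a + 2)) := by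
    intro X F F' hX hF hF'
    refine le_trans (DD_card X F F') ?_
    exact Nat.mul_le_mul (Nat.pow_le_pow_right (by omega) hX) (Nat.mul_le_mul hF hF')
  obtain ⟨v, hv, hvU⟩ : ∃ v, G.Adj 0 v ∧ v ∉ DD U F1 F2 := by
    have h1 : (DD U F1 F2).ncard < Nat.card V := by
      have h2 := DD_card U F1 F2
      have h3 : F1.ncard * F2.ncard ≤ (a + 2) * (a + 2) := Nat.mul_le_mul hF1c hF2c
      have h4 : (a + 2) * (a + 2) < p ^ b := by
        have h5 : p ^ q ≤ p ^ b := Nat.pow_le_pow_right (by omega) (by omega)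
        omega
      rw [hcardV, pow_add]
      have h6 : 0 < p ^ a := pow_pos (by omega) a
      refine lt_of_le_of_lt h2 ?_
      rw [← hadef]
      exact Nat.mul_lt_mul_of_pos_left (lt_of_le_of_lt h3 h4) h6
    obtain ⟨x, hx⟩ : ∃ x, x ∉ DD U F1 F2 := by
      by_contra hcon
      push Not at hcon
      rw [Set.eq_univ_of_forall hcon, Set.ncard_univ] at h1
      exact lt_irrefl _ h1
    have hxU : x ∉ U := fun h => hx ⟨x, h, 0, h0F1, 0, h0F2, by simp⟩
    obtain ⟨u, hu, hadj⟩ := hit x hxU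
    refine ⟨x + u, hadj, ?_⟩
    rintro ⟨u', hu', f, hf, f', hf', h⟩
    apply hx
    refine ⟨u' - u, U.sub_mem hu' hu, f, hf, f', hf', ?_⟩
    rw [eq_sub_of_add_eq h]
    abel
  -- stage 1
  have hcU : Nat.card U = p ^ a := card_pow U
  obtain ⟨T, hTU, hTd, hTE⟩ := greedy_sub U ((DD U1 F1 F1 ∪ DD U2 F2 F2) \ {0})
    (fun h => h.2 rfl) δ (by
      rw [hcU]
      have h1 : ((DD U1 F1 F1 ∪ DD U2 F2 F2) \ {0}).ncard ≤
          2 * (p ^ (a - a / 2) * ((a + 2) * (a + 2))) := by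
        refine le_trans (Set.ncard_le_ncard Set.sdiff_subset (Set.toFinite _)) ?_
        refine le_trans (Set.ncard_union_le _ _) ?_
        have h2 := hDDc U1 F1 F1 hd1 hF1c hF1c
        have h3 := hDDc U2 F2 F2 hd2 hF2c hF2c
        omega
      have h4 : 1 ≤ p ^ (a - a / 2) := Nat.one_le_pow _ _ (by omega)
      have h5 : p ^ κ = p ^ (a - a / 2) * p ^ q := by rw [← pow_add]
      have h6 : p ^ (a - a / 2) * (1 + 2 * ((a + 2) * (a + 2))) ≤ p ^ κ := by
        rw [h5]; exact Nat.mul_le_mul_left _ hnum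
      have h7 : p ^ a = p ^ κ * p ^ δ := by
        rw [← pow_add]
        congr 1
        omega
      rw [h7]
      refine Nat.mul_le_mul_right _ ?_
      refine le_trans ?_ h6
      rw [mul_add, mul_one]
      have h8 : p ^ (a - a / 2) * (2 * ((a + 2) * (a + 2))) =
          2 * (p ^ (a - a / 2) * ((a + 2) * (a + 2))) := by ring
      omega)
  -- stage 2
  set E3 : Set V := {x | ∃ u ∈ U, ∃ f ∈ F2, ∃ f' ∈ F1, x = v + (u + (f - f'))} with hE3
  set E4 : Set V := {x | -x ∈ E3} with hE4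
  set E : Set V := ((DD U1 F1 F1 ∪ DD U2 F2 F2) \ {0}) ∪ (E3 ∪ E4) with hE
  have hTQ : finrank (ZMod p) (V ⧸ T) = a + b - δ := by
    have := Submodule.finrank_quotient_add_finrank T
    omega
  have hE3T : ∀ x ∈ E3, x ∉ T := by
    rintro x ⟨u, hu, f, hf, f', hf', rfl⟩ hxT
    apply hvU
    refine ⟨(v + (u + (f - f'))) - u, U.sub_mem (hTU hxT) hu, f', hf', f, hf, ?_⟩
    abel
  have himg3 : (T.mkQ '' E3).ncard ≤ p ^ (a - δ) * ((a + 2) * (a + 2)) := by
    have h1 : T.mkQ '' E3 ⊆ (fun t : (V ⧸ T) × (V × V) =>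
        T.mkQ v + (t.1 + (T.mkQ t.2.1 - T.mkQ t.2.2))) ''
        (((U.map T.mkQ : Submodule (ZMod p) (V ⧸ T)) : Set (V ⧸ T)) ×ˢ (F2 ×ˢ F1)) := by
      rintro _ ⟨x, ⟨u, hu, f, hf, f', hf', rfl⟩, rfl⟩
      refine ⟨(T.mkQ u, (f, f')), ⟨⟨u, hu, rfl⟩, hf, hf'⟩, ?_⟩
      simp only [map_add, map_sub]
    haveI : Finite (V ⧸ T) := Finite.of_surjective T.mkQ (Submodule.mkQ_surjective T)
    refine le_trans (Set.ncard_le_ncard h1 (Set.toFinite _)) ?_
    refine le_trans (Set.ncard_image_le (Set.toFinite _)) ?_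
    rw [Set.ncard_prod, Set.ncard_prod]
    have h2 : ((U.map T.mkQ : Submodule (ZMod p) (V ⧸ T)) : Set (V ⧸ T)).ncard = p ^ (a - δ) := by
      have h3 := finrank_map_mkQ T U hTU
      have h4 := card_pow (U.map T.mkQ)
      have h5 : finrank (ZMod p) (U.map T.mkQ) = a - δ := by omega
      rw [h5] at h4
      exact h4
    rw [h2]
    exact Nat.mul_le_mul_left _ (Nat.mul_le_mul hF2c hF1c)
  have himg4 : (T.mkQ '' E4).ncard ≤ p ^ (a - δ) * ((a + 2) * (a + 2)) := by
    haveI : Finite (V ⧸ T) := Finite.of_surjective T.mkQ (Submodule.mkQ_surjective T)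
    refine le_trans ?_ himg3
    have h1 : T.mkQ '' E4 = (fun x => -x) '' (T.mkQ '' E3) := by
      ext y
      constructor
      · rintro ⟨x, hx, rfl⟩
        exact ⟨T.mkQ (-x), ⟨-x, hx, rfl⟩, by simp⟩
      · rintro ⟨_, ⟨x, hx, rfl⟩, rfl⟩
        exact ⟨-x, by rw [hE4, Set.mem_ofPred_eq, neg_neg]; exact hx, by simp⟩
    rw [h1]
    exact Set.ncard_image_le (Set.toFinite _)
  obtain ⟨R, hTR, hRd, hRE⟩ := greedy_above T E (by
      rintro x (hx | hx | hx) hxT
      · exact hTE x hxT hx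
      · exact hE3T x hx hxT
      · exact hE3T (-x) hx (T.neg_mem hxT)) (b - δ) (by
      haveI : Finite (V ⧸ T) := Finite.of_surjective T.mkQ (Submodule.mkQ_surjective T)
      rw [hcardQ T, hTQ]
      have h1 : (T.mkQ '' E).ncard ≤ 2 * (p ^ (a - a / 2) * ((a + 2) * (a + 2))) +
          2 * (p ^ (a - δ) * ((a + 2) * (a + 2))) := by
        rw [hE, Set.image_union, Set.image_union]
        refine le_trans (Set.ncard_union_le _ _) ?_
        have h2 : (T.mkQ '' ((DD U1 F1 F1 ∪ DD U2 F2 F2) \ {0})).ncard ≤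
            2 * (p ^ (a - a / 2) * ((a + 2) * (a + 2))) := by
          refine le_trans (Set.ncard_image_le (Set.toFinite _)) ?_
          refine le_trans (Set.ncard_le_ncard Set.sdiff_subset (Set.toFinite _)) ?_
          refine le_trans (Set.ncard_union_le _ _) ?_
          have h2 := hDDc U1 F1 F1 hd1 hF1c hF1c
          have h3 := hDDc U2 F2 F2 hd2 hF2c hF2c
          omega
        have h3 := Set.ncard_union_le (T.mkQ '' E3) (T.mkQ '' E4)
        omega
      have hk : a - δ = κ := by omega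
      rw [hk] at h1
      have h5 : p ^ κ = p ^ (a - a / 2) * p ^ q := by rw [← pow_add]
      have h6 : p ^ (a - a / 2) * (1 + 2 * ((a + 2) * (a + 2))) ≤ p ^ κ := by
        rw [h5]; exact Nat.mul_le_mul_left _ hnum
      have h4 : 1 ≤ p ^ (a - a / 2) := Nat.one_le_pow _ _ (by omega)
      have h7 : p ^ κ * (1 + 2 * ((a + 2) * (a + 2))) ≤ p ^ a := by
        have h8 : p ^ κ * p ^ q ≤ p ^ a := by
          rw [← pow_add]
          exact Nat.pow_le_pow_right (by omega) (by omega)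
        exact le_trans (Nat.mul_le_mul_left _ hnum) h8
      have h9 : p ^ (a + b - δ) = p ^ a * p ^ (b - δ) := by
        rw [← pow_add]
        congr 1
        omega
      rw [h9]
      refine Nat.mul_le_mul_right _ ?_
      refine le_trans ?_ h7
      have h10 : p ^ (a - a / 2) * (2 * ((a + 2) * (a + 2))) =
          2 * (p ^ (a - a / 2) * ((a + 2) * (a + 2))) := by ring
      have h11 : p ^ κ * (2 * ((a + 2) * (a + 2))) =
          2 * (p ^ κ * ((a + 2) * (a + 2))) := by ring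
      rw [mul_add, mul_one] at h6 ⊢
      omega)
  -- the minor
  set P1 := PP U1 F1 with hP1
  set P2 := PP U2 F2 with hP2
  set C : Set V := P1 ∪ (fun z => z + v) '' P2 with hC
  have h0P1 : (0 : V) ∈ P1 := ⟨0, U1.zero_mem, 0, h0F1, by rw [add_zero]⟩
  have h0P2 : (0 : V) ∈ P2 := ⟨0, U2.zero_mem, 0, h0F2, by rw [add_zero]⟩
  have hvC : v ∈ C := Or.inr ⟨0, h0P2, zero_add v⟩
  have hCconn : Conn G C := by
    refine ⟨0, Or.inl h0P1, ?_⟩
    rintro x (hx | ⟨y, hy, rfl⟩)
    · exact (hconn B1 hB1 x hx).mono Set.subset_union_left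
    · have h1 := ((hconn B2 Finset.sdiff_subset y hy).translate hG v).mono
        (Set.subset_union_right : _ ⊆ P1 ∪ (fun z => z + v) '' P2)
      rw [zero_add] at h1
      exact ((Rch.refl (G := G) (B := C) (0 : V)).step hvC hv).trans h1
  have hdiff : ∀ c ∈ C, ∀ c' ∈ C, c - c' ≠ 0 → c - c' ∈ E := by
    have hPd : ∀ (X : Submodule (ZMod p) V) (F : Set V), ∀ x ∈ PP X F, ∀ y ∈ PP X F,
        x - y ∈ DD X F F := by
      rintro X F x ⟨u, hu, f, hf, rfl⟩ y ⟨u', hu', f', hf', rfl⟩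
      exact ⟨u - u', X.sub_mem hu hu', f, hf, f', hf', by abel⟩
    have hcross : ∀ x ∈ P1, ∀ y ∈ P2, y + v - x ∈ E3 := by
      rintro x ⟨u, hu, f, hf, rfl⟩ y ⟨u', hu', f', hf', rfl⟩
      exact ⟨u' - u, U.sub_mem (hU2U hu') (hU1U hu), f', hf', f, hf, by abel⟩
    rintro c (hc | ⟨y, hy, rfl⟩) c' (hc' | ⟨y', hy', rfl⟩) hne
    · exact Or.inl ⟨Or.inl (hPd _ _ _ hc _ hc'), hne⟩
    · right; right
      rw [hE4, Set.mem_ofPred_eq, neg_sub]
      exact hcross c hc y' hy'
    · right; left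
      exact hcross c' hc' y hy
    · left
      refine ⟨Or.inr ?_, hne⟩
      have := hPd _ _ _ hy _ hy'
      have h2 : y + v - (y' + v) = y - y' := by abel
      simp only
      rw [h2]
      exact this
  have hRfin : finrank (ZMod p) R = b := by rw [hRd, hTd]; omega
  have hcR : Nat.card (V ⧸ U) ≤ Nat.card R.toAddSubgroup := by
    rw [hcardQ U]
    have : Nat.card R.toAddSubgroup = p ^ b := by
      rw [← hRfin]
      exact card_pow R
    rw [this]
  refine minor_of_translates hG hCconn R.toAddSubgroup ?_ ?_ hcR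
  · intro c hc c' hc' hR
    by_contra hne
    exact hRE _ hR (hdiff c hc c' hc' (sub_ne_zero.2 hne))
  · intro r hr hr0
    have hrU : r - v ∉ U := by
      intro h
      refine hRE r hr (Or.inr (Or.inl ⟨r - v, h, 0, h0F2, 0, h0F1, by abel⟩))
    obtain ⟨u, hu, hadj⟩ := hit _ hrU
    -- `-u = u1 + u2`
    have hu' : -u ∈ U1 ⊔ U2 := by rw [hU12]; exact U.neg_mem hu
    obtain ⟨u1, hu1, u2, hu2, h12⟩ := Submodule.mem_sup.1 hu'
    refine ⟨u2 + v, Or.inr ⟨u2, ⟨u2, hu2, 0, h0F2, by rw [add_zero]⟩, rfl⟩, -u1,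
      Or.inl ⟨-u1, U1.neg_mem hu1, 0, h0F1, by rw [add_zero]⟩, ?_⟩
    rw [hG.adj]
    have h3 : -u1 + r - (u2 + v) = r - v + u := by
      have h4 : u = -(u1 + u2) := by rw [h12, neg_neg]
      rw [h4]; abel
    rw [h3]
    exact hadj

end

end Pool.Agent.Run7.h644.CU
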