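import Pool.Agent.Run7.h644.CU.Cross

set_option autoImplicit false

namespace Pool.Agent.Run7.h644.CU

open Module

section

variable {p : ℕ} [Fact p.Prime] {V : Type} [AddCommGroup V] [Module (ZMod p) V] [Finite V]
  {G : SimpleGraph V}

theorem card_quot (T : Submodule (ZMod p) V) :
    Nat.card (V ⧸ T) = p ^ finrank (ZMod p) (V ⧸ T) := by
  have : Finite (V ⧸ T) := Finite.of_surjective T.mkQ (Submodule.mkQ_surjective T)
  have := Fintype.ofFinite (V ⧸ T)
  rw [Nat.card_eq_fintype_card, Module.card_eq_pow_finrank (K := ZMod p), ZMod.card]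

/-- A subspace of given dimension of `H` which meets two given subspaces trivially. -/
theorem common (H P Q : Submodule (ZMod p) V) (hP : P ≤ H) (hQ : Q ≤ H) (k : ℕ)
    (h1 : k + finrank (ZMod p) P ≤ finrank (ZMod p) H)
    (h2 : k + finrank (ZMod p) Q ≤ finrank (ZMod p) H) :
    ∃ R : Submodule (ZMod p) V, R ≤ H ∧ finrank (ZMod p) R = k ∧
      (∀ x ∈ R, x ∈ P → x = 0) ∧ (∀ x ∈ R, x ∈ Q → x = 0) := by
  induction k with
  | zero =>
    exact ⟨⊥, bot_le, finrank_bot _ _, fun x hx _ => (Submodule.mem_bot _).1 hx,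
      fun x hx _ => (Submodule.mem_bot _).1 hx⟩
  | succ k ih =>
    obtain ⟨R, hRH, hRk, hRP, hRQ⟩ := ih (by omega) (by omega)
    have hne : ∀ P' : Submodule (ZMod p) V, P' ≤ H →
        k + 1 + finrank (ZMod p) P' ≤ finrank (ZMod p) H → ∃ x ∈ H, x ∉ R ⊔ P' := by
      intro P' hP' hk
      by_contra hcon
      push Not at hcon
      have h3 : H ≤ R ⊔ P' := hcon
      have h4 := Submodule.finrank_mono h3
      have h5 := Submodule.finrank_add_le_finrank_add_finrank R P'
      omega
    obtain ⟨y, hyH, hyP⟩ := hne P hP h1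
    obtain ⟨z, hzH, hzQ⟩ := hne Q hQ h2
    obtain ⟨x, hxH, hxP, hxQ⟩ : ∃ x ∈ H, x ∉ R ⊔ P ∧ x ∉ R ⊔ Q := by
      by_cases hyQ : y ∈ R ⊔ Q
      · by_cases hzP : z ∈ R ⊔ P
        · refine ⟨y + z, H.add_mem hyH hzH, ?_, ?_⟩
          · intro h
            apply hyP
            have := (R ⊔ P).sub_mem h hzP
            rwa [add_sub_cancel_right] at this
          · intro h
            apply hzQ
            have := (R ⊔ Q).sub_mem h hyQ
            rwa [add_sub_cancel_left] at this
        · exact ⟨z, hzH, hzP, hzQ⟩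
      · exact ⟨y, hyH, hyP, hyQ⟩
    have hxR : x ∉ R := fun h => hxP (Submodule.mem_sup_left h)
    have key : ∀ P' : Submodule (ZMod p) V, (∀ x ∈ R, x ∈ P' → x = 0) → x ∉ R ⊔ P' →
        ∀ w ∈ R ⊔ Submodule.span (ZMod p) {x}, w ∈ P' → w = 0 := by
      intro P' hRP' hxP' w hw hwP
      obtain ⟨r, hr, t, ht, rfl⟩ := Submodule.mem_sup.1 hw
      obtain ⟨c, rfl⟩ := Submodule.mem_span_singleton.1 ht
      by_cases hc : c = 0
      · rw [hc, zero_smul, add_zero] at hwP ⊢
        exact hRP' r hr hwP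
      · exfalso
        apply hxP'
        have h3 : x = c⁻¹ • (-r + (r + c • x)) := by
          rw [neg_add_cancel_left, smul_smul, inv_mul_cancel₀ hc, one_smul]
        rw [h3]
        exact Submodule.smul_mem _ _ (Submodule.add_mem_sup (R.neg_mem hr) hwP)
    refine ⟨R ⊔ Submodule.span (ZMod p) {x}, ?_, ?_, key P hRP hxP, key Q hRQ hxQ⟩
    · refine sup_le hRH ?_
      rw [Submodule.span_singleton_le_iff_mem]
      exact hxH
    · rw [finrank_sup_singleton R hxR, hRk]

/-- If an independent subgroup `U` with all cosets joined lies in a small connected subgroup. -/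
theorem mid (hG : TI G) (U : Submodule (ZMod p) V)
    (hit : ∀ x, x ∉ U → ∃ u ∈ U, G.Adj 0 (x + u))
    (hspan : AddSubgroup.closure {s | G.Adj 0 s} = ⊤)
    (D : Set V) (hD : ∀ u ∈ D, G.Adj 0 u) (hUM : U ≤ Submodule.span (ZMod p) D)
    (hM : finrank (ZMod p) (Submodule.span (ZMod p) D) + 2 ≤ 2 * finrank (ZMod p) U) :
    HasMinor G (Nat.card (V ⧸ U)) := by
  classical
  set M := Submodule.span (ZMod p) D with hMdef
  set a := finrank (ZMod p) U with ha
  set b := finrank (ZMod p) (V ⧸ U) with hb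
  have hn : finrank (ZMod p) V = a + b := by
    have := Submodule.finrank_quotient_add_finrank U
    omega
  rw [card_quot U, ← hb]
  by_cases hMtop : M = ⊤
  · refine cross hG hspan b ?_
    rw [hMtop, finrank_top] at hM
    omega
  obtain ⟨v, hv, hvM⟩ : ∃ v, G.Adj 0 v ∧ v ∉ M := by
    by_contra hcon
    push Not at hcon
    apply hMtop
    rw [eq_top_iff, ← span_top (p := p) hspan, Submodule.span_le]
    exact hcon
  obtain ⟨t, htD, htc, hts, -⟩ := Submodule.exists_finset_span_eq_linearIndepOn (ZMod p) D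
  rw [← hMdef] at htc hts
  obtain ⟨t1, ht1, ht1c⟩ := Finset.exists_subset_card_eq (s := t) (n := t.card / 2) (by omega)
  set t2 := t \ t1 with ht2
  have ht2c : t2.card = t.card - t.card / 2 := by
    rw [ht2, Finset.card_sdiff_of_subset ht1, ht1c]
  set P := Submodule.span (ZMod p) (t1 : Set V) with hP
  set Q := Submodule.span (ZMod p) (t2 : Set V) with hQ
  have hPQ : P ⊔ Q = M := by
    rw [hP, hQ, ← Submodule.span_union, ← hts]
    congr 1
    rw [ht2, ← Finset.coe_union, Finset.union_sdiff_of_subset ht1]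
  have hPc : finrank (ZMod p) P + 1 ≤ a := by
    have : finrank (ZMod p) (Submodule.span (ZMod p) (t1 : Set V)) ≤ t1.card :=
      finrank_span_finset_le_card (R := ZMod p) t1
    rw [← hP] at this
    omega
  have hQc : finrank (ZMod p) Q + 1 ≤ a := by
    have : finrank (ZMod p) (Submodule.span (ZMod p) (t2 : Set V)) ≤ t2.card :=
      finrank_span_finset_le_card (R := ZMod p) t2
    rw [← hQ] at this
    omega
  obtain ⟨f, hfv, hfM⟩ := Submodule.exists_le_ker_of_notMem hvM
  have hker : finrank (ZMod p) (LinearMap.ker f) + 1 = a + b := by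
    have h1 := LinearMap.finrank_range_add_finrank_ker f
    have h2 : LinearMap.range f = ⊤ := by
      rw [LinearMap.range_eq_top]
      exact LinearMap.surjective (fun h => hfv (by rw [h]; rfl))
    rw [h2, finrank_top, finrank_self] at h1
    omega
  have hPM : P ≤ M := by rw [← hPQ]; exact le_sup_left
  have hQM : Q ≤ M := by rw [← hPQ]; exact le_sup_right
  obtain ⟨R, hRH, hRb, hRP, hRQ⟩ := common (LinearMap.ker f) P Q (hPM.trans hfM) (hQM.trans hfM) b
    (by omega) (by omega)
  have hfz : ∀ x ∈ M, f x = 0 := fun x hx => hfM hx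
  have hfR : ∀ x ∈ R, f x = 0 := fun x hx => hRH hx
  set C : Set V := (P : Set V) ∪ (fun z => z + v) '' (Q : Set V) with hC
  have hvC : v ∈ C := Or.inr ⟨0, Q.zero_mem, zero_add v⟩
  have hCconn : Conn G C := by
    refine ⟨0, Or.inl P.zero_mem, ?_⟩
    rintro x (hx | ⟨y, hy, rfl⟩)
    · exact (span_conn0 (p := p) hG (t1 : Set V) (fun u hu => hD u (htD (ht1 hu))) x hx).mono
        Set.subset_union_left
    · have h1 := ((span_conn0 (p := p) hG (t2 : Set V)
        (fun u hu => hD u (htD (Finset.sdiff_subset hu))) y hy).translate hG v).mono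
        (Set.subset_union_right : _ ⊆ (P : Set V) ∪ (fun z => z + v) '' (Q : Set V))
      rw [zero_add] at h1
      exact ((Rch.refl (G := G) (B := C) (0 : V)).step hvC hv).trans h1
  have hcR : p ^ b ≤ Nat.card R.toAddSubgroup := by
    have : Nat.card R.toAddSubgroup = p ^ b := by
      rw [← hRb]
      exact card_pow R
    rw [this]
  refine minor_of_translates hG hCconn R.toAddSubgroup ?_ ?_ hcR
  · rintro c (hc | ⟨c, hc, rfl⟩) c' (hc' | ⟨c', hc', rfl⟩) hR
    · exact sub_eq_zero.1 (hRP _ hR (P.sub_mem hc hc'))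
    · exfalso
      have h1 := hfR _ hR
      simp only [map_sub, map_add] at h1
      rw [hfz c (hPM hc), hfz c' (hQM hc')] at h1
      apply hfv
      simpa using h1
    · exfalso
      have h1 := hfR _ hR
      simp only [map_sub, map_add] at h1
      rw [hfz c (hQM hc), hfz c' (hPM hc')] at h1
      apply hfv
      simpa using h1
    · simp only at hR ⊢
      have h1 : c + v - (c' + v) = c - c' := by abel
      rw [h1] at hR
      rw [sub_eq_zero.1 (hRQ _ hR (Q.sub_mem hc hc'))]
  · intro r hr hr0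
    have hrU : r - v ∉ U := by
      intro h
      have h1 := hfz _ (hUM h)
      rw [map_sub, hfR r hr, zero_sub, neg_eq_zero] at h1
      exact hfv h1
    obtain ⟨u, hu, hadj⟩ := hit _ hrU
    have hu' : -u ∈ P ⊔ Q := by rw [hPQ]; exact M.neg_mem (hUM hu)
    obtain ⟨u1, hu1, u2, hu2, h12⟩ := Submodule.mem_sup.1 hu'
    refine ⟨u2 + v, Or.inr ⟨u2, hu2, rfl⟩, -u1, Or.inl (P.neg_mem hu1), ?_⟩
    rw [hG.adj]
    have h3 : -u1 + r - (u2 + v) = r - v + u := by
      have h4 : u = -(u1 + u2) := by rw [h12, neg_neg]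
      rw [h4]; abel
    rw [h3]
    exact hadj

/-- A dense coset. -/
theorem mid_dense (hG : TI G) (U : Submodule (ZMod p) V) (hU : ∀ u ∈ U, ¬ G.Adj 0 u)
    (hit : ∀ x, x ∉ U → ∃ u ∈ U, G.Adj 0 (x + u))
    (hspan : AddSubgroup.closure {s | G.Adj 0 s} = ⊤) (c : ℕ)
    (hc : 2 * c + 3 ≤ finrank (ZMod p) U) (z : V) (S' : Set V)
    (hS' : ∀ s ∈ S', G.Adj 0 s ∧ s - z ∈ U)
    (hcard : p ^ finrank (ZMod p) U < S'.ncard * p ^ (c + 1)) :
    HasMinor G (Nat.card (V ⧸ U)) := by
  classical
  have hp : 2 ≤ p := (Fact.out : p.Prime).two_le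
  have hne : S'.Nonempty := by
    by_contra h
    rw [Set.not_nonempty_iff_eq_empty] at h
    rw [h, Set.ncard_empty, zero_mul] at hcard
    omega
  obtain ⟨s0, hs0⟩ := hne
  set D0 := Submodule.span (ZMod p) ((fun s => s - s0) '' S') with hD0
  have hD0U : D0 ≤ U := by
    rw [hD0, Submodule.span_le]
    rintro _ ⟨s, hs, rfl⟩
    have h1 : s - s0 = (s - z) - (s0 - z) := by abel
    simp only
    rw [h1]
    exact U.sub_mem (hS' s hs).2 (hS' s0 hs0).2
  have hD0c : finrank (ZMod p) U ≤ finrank (ZMod p) D0 + c := by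
    have h1 : S'.ncard ≤ p ^ finrank (ZMod p) D0 := by
      rw [← card_pow D0]
      have h2 : S'.ncard = ((fun s => s - s0) '' S').ncard :=
        (Set.ncard_image_of_injective _ (sub_left_injective)).symm
      rw [h2]
      exact Set.ncard_le_ncard Submodule.subset_span (Set.toFinite (D0 : Set V))
    by_contra hcon
    push Not at hcon
    have h3 : p ^ finrank (ZMod p) U < p ^ (finrank (ZMod p) D0 + (c + 1)) := by
      rw [pow_add]
      exact lt_of_lt_of_le hcard (Nat.mul_le_mul_right _ h1)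
    have h4 := (Nat.pow_lt_pow_iff_right (by omega : 1 < p)).1 h3
    omega
  -- extension to `U`
  have hmap : Submodule.span (ZMod p) (D0.mkQ '' (Del G U)) = U.map D0.mkQ := by
    rw [Submodule.span_image, span_del hG U hU hit hspan]
  obtain ⟨t, htD, htc, hts, -⟩ :=
    Submodule.exists_finset_span_eq_linearIndepOn (ZMod p) (D0.mkQ '' (Del G U))
  rw [hmap] at htc hts
  have htc' : t.card ≤ c := by
    have := finrank_map_mkQ D0 U hD0U
    omega
  have hlift : ∀ y : V ⧸ D0, ∃ s : V × (V × V), y ∈ t → (G.Adj 0 s.1 ∧ G.Adj 0 s.2.1 ∧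
      (G.Adj 0 s.2.2 ∨ s.2.2 = 0) ∧ s.1 + s.2.1 + s.2.2 ∈ U ∧
      D0.mkQ (s.1 + s.2.1 + s.2.2) = y) := by
    intro y
    by_cases hy : y ∈ t
    · obtain ⟨u, ⟨hu, t1, t2, t3, h1, h2, h3, rfl⟩, rfl⟩ := htD hy
      exact ⟨(t1, (t2, t3)), fun _ => ⟨h1, h2, h3, hu, rfl⟩⟩
    · exact ⟨0, fun h => absurd h hy⟩
  choose s hs using hlift
  set D : Set V := {w | G.Adj 0 w ∧ (w ∈ S' ∨ ∃ y ∈ t, w = (s y).1 ∨ w = (s y).2.1 ∨
    w = (s y).2.2)} with hD
  have hS'D : ∀ w ∈ S', w ∈ Submodule.span (ZMod p) D := fun w hw =>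
    Submodule.subset_span ⟨(hS' w hw).1, Or.inl hw⟩
  have hD0M : D0 ≤ Submodule.span (ZMod p) D := by
    rw [hD0, Submodule.span_le]
    rintro _ ⟨w, hw, rfl⟩
    exact Submodule.sub_mem _ (hS'D w hw) (hS'D s0 hs0)
  have hUM : U ≤ Submodule.span (ZMod p) D := by
    have h1 : U.map D0.mkQ ≤ (Submodule.span (ZMod p) D).map D0.mkQ := by
      rw [← hts, Submodule.span_le]
      intro y hy
      obtain ⟨h1, h2, h3, h4, h5⟩ := hs y hy
      rw [← h5]
      refine ⟨_, ?_, rfl⟩
      refine Submodule.add_mem _ (Submodule.add_mem _ ?_ ?_) ?_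
      · exact Submodule.subset_span ⟨h1, Or.inr ⟨y, hy, Or.inl rfl⟩⟩
      · exact Submodule.subset_span ⟨h2, Or.inr ⟨y, hy, Or.inr (Or.inl rfl)⟩⟩
      · rcases h3 with h3 | h3
        · exact Submodule.subset_span ⟨h3, Or.inr ⟨y, hy, Or.inr (Or.inr rfl)⟩⟩
        · rw [h3]; exact Submodule.zero_mem _
    intro u hu
    obtain ⟨m, hm, hmu⟩ := h1 ⟨u, hu, rfl⟩
    rw [← sub_eq_zero, ← map_sub, Submodule.mkQ_apply, Submodule.Quotient.mk_eq_zero] at hmu
    have h2 : u = m - (m - u) := by abel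
    rw [h2]
    exact Submodule.sub_mem _ hm (hD0M hmu)
  refine mid hG U hit hspan D (fun u hu => hu.1) hUM ?_
  -- dimension
  set Z : Submodule (ZMod p) V := U ⊔ (Submodule.span (ZMod p) {s0} ⊔
    (Submodule.span (ZMod p) ((t.image (fun y => (s y).1) : Finset V) : Set V) ⊔
      Submodule.span (ZMod p) ((t.image (fun y => (s y).2.1) : Finset V) : Set V))) with hZ
  have hDZ : Submodule.span (ZMod p) D ≤ Z := by
    have hUZ : ∀ x ∈ U, x ∈ Z := fun x hx => Submodule.mem_sup_left hx
    have h1Z : ∀ y ∈ t, (s y).1 ∈ Z := fun y hy =>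
      Submodule.mem_sup_right (Submodule.mem_sup_right (Submodule.mem_sup_left
        (Submodule.subset_span (by
          rw [Finset.coe_image]
          exact ⟨y, hy, rfl⟩))))
    have h2Z : ∀ y ∈ t, (s y).2.1 ∈ Z := fun y hy =>
      Submodule.mem_sup_right (Submodule.mem_sup_right (Submodule.mem_sup_right
        (Submodule.subset_span (by
          rw [Finset.coe_image]
          exact ⟨y, hy, rfl⟩))))
    rw [Submodule.span_le]
    rintro w ⟨-, hw | ⟨y, hy, hw⟩⟩
    · have h1 : w = (w - z - (s0 - z)) + s0 := by abel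
      rw [h1]
      refine Z.add_mem (hUZ _ (U.sub_mem (hS' w hw).2 (hS' s0 hs0).2)) ?_
      exact Submodule.mem_sup_right (Submodule.mem_sup_left
        (Submodule.mem_span_singleton_self s0))
    · rcases hw with rfl | rfl | rfl
      · exact h1Z y hy
      · exact h2Z y hy
      · obtain ⟨-, -, -, h4, -⟩ := hs y hy
        have h5 : (s y).2.2 = ((s y).1 + (s y).2.1 + (s y).2.2) - ((s y).1 + (s y).2.1) := by abel
        rw [h5]
        exact Z.sub_mem (hUZ _ h4) (Z.add_mem (h1Z y hy) (h2Z y hy))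
  have h1 := Submodule.finrank_mono hDZ
  have h2 : finrank (ZMod p) Z ≤ finrank (ZMod p) U + (1 + (c + c)) := by
    refine le_trans (Submodule.finrank_add_le_finrank_add_finrank _ _) ?_
    refine Nat.add_le_add_left ?_ _
    refine le_trans (Submodule.finrank_add_le_finrank_add_finrank _ _) ?_
    refine Nat.add_le_add ?_ ?_
    · exact le_trans (finrank_span_le_card (R := ZMod p) ({s0} : Set V)) (by simp)
    · refine le_trans (Submodule.finrank_add_le_finrank_add_finrank _ _) ?_
      refine Nat.add_le_add ?_ ?_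
      · exact le_trans (finrank_span_finset_le_card _) (le_trans Finset.card_image_le htc')
      · exact le_trans (finrank_span_finset_le_card _) (le_trans Finset.card_image_le htc')
  omega

end

end Pool.Agent.Run7.h644.CU
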