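import Pool.Agent.Run7.h644.CU.Core

set_option autoImplicit false

namespace Pool.Agent.Run7.h644.CU

open Module

section

variable {p : ℕ} [Fact p.Prime] {V : Type} [AddCommGroup V] [Module (ZMod p) V] [Finite V]
  {G : SimpleGraph V}

/-- Elements of `U` which are sums of two or three elements of the connection set. -/
def Del (G : SimpleGraph V) (U : Submodule (ZMod p) V) : Set V :=
  {u | u ∈ U ∧ ∃ s1 s2 s3, G.Adj 0 s1 ∧ G.Adj 0 s2 ∧ (G.Adj 0 s3 ∨ s3 = 0) ∧ u = s1 + s2 + s3}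

theorem span_del (hG : TI G) (U : Submodule (ZMod p) V) (hU : ∀ u ∈ U, ¬ G.Adj 0 u)
    (hit : ∀ x, x ∉ U → ∃ u ∈ U, G.Adj 0 (x + u))
    (hspan : AddSubgroup.closure {s | G.Adj 0 s} = ⊤) :
    Submodule.span (ZMod p) (Del G U) = U := by
  set D := Submodule.span (ZMod p) (Del G U) with hD
  have hDU : D ≤ U := by
    rw [hD, Submodule.span_le]
    intro u hu
    exact hu.1
  have hstep : ∀ s, G.Adj 0 s → ∀ y, (y ∈ D ∨ ∃ t, G.Adj 0 t ∧ y - t ∈ D) →
      (y + s ∈ D ∨ ∃ t, G.Adj 0 t ∧ y + s - t ∈ D) := by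
    intro s hs y hy
    rcases hy with hy | ⟨t, ht, hy⟩
    · right
      exact ⟨s, hs, by rwa [add_sub_cancel_right]⟩
    · by_cases hst : t + s ∈ U
      · left
        have h1 : t + s ∈ D := by
          apply Submodule.subset_span
          exact ⟨hst, t, s, 0, ht, hs, Or.inr rfl, by rw [add_zero]⟩
        have h2 : y + s = (y - t) + (t + s) := by abel
        rw [h2]
        exact D.add_mem hy h1
      · right
        obtain ⟨u, hu, hadj⟩ := hit _ hst
        refine ⟨t + s + u, hadj, ?_⟩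
        have h1 : -u ∈ D := by
          apply Submodule.subset_span
          exact ⟨U.neg_mem hu, t, s, -(t + s + u), ht, hs, Or.inl (hG.neg hadj), by abel⟩
        have h2 : y + s - (t + s + u) = (y - t) + -u := by abel
        rw [h2]
        exact D.add_mem hy h1
  have hall : ∀ x ∈ AddSubgroup.closure {s | G.Adj 0 s},
      (∀ y, (y ∈ D ∨ ∃ t, G.Adj 0 t ∧ y - t ∈ D) →
        (y + x ∈ D ∨ ∃ t, G.Adj 0 t ∧ y + x - t ∈ D)) ∧
      (∀ y, (y ∈ D ∨ ∃ t, G.Adj 0 t ∧ y - t ∈ D) →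
        (y + -x ∈ D ∨ ∃ t, G.Adj 0 t ∧ y + -x - t ∈ D)) := by
    intro x hx
    induction hx using AddSubgroup.closure_induction with
    | mem s hs => exact ⟨hstep s hs, hstep (-s) (hG.neg hs)⟩
    | zero => simp
    | add a b _ _ ha hb =>
      refine ⟨fun y hy => ?_, fun y hy => ?_⟩
      · rw [← add_assoc]
        exact hb.1 _ (ha.1 _ hy)
      · rw [neg_add, ← add_assoc]
        exact hb.2 _ (ha.2 _ hy)
    | neg a _ ha => exact ⟨ha.2, by rw [neg_neg]; exact ha.1⟩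
  refine le_antisymm hDU ?_
  intro u hu
  have h1 := (hall u (by rw [hspan]; trivial)).1 0 (Or.inl D.zero_mem)
  rw [zero_add] at h1
  rcases h1 with h1 | ⟨t, ht, h1⟩
  · exact h1
  · exfalso
    refine hU t ?_ ht
    have h2 : t = u - (u - t) := by abel
    rw [h2]
    exact U.sub_mem hu (hDU h1)

/-- The set `{u + f}`. -/
def PP (X : Submodule (ZMod p) V) (F : Set V) : Set V := {x | ∃ u ∈ X, ∃ f ∈ F, x = u + f}

/-- Differences. -/
def DD (X : Submodule (ZMod p) V) (F F' : Set V) : Set V :=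
  {x | ∃ u ∈ X, ∃ f ∈ F, ∃ f' ∈ F', x = u + (f - f')}

theorem DD_card (X : Submodule (ZMod p) V) (F F' : Set V) :
    (DD X F F').ncard ≤ p ^ finrank (ZMod p) X * (F.ncard * F'.ncard) := by
  have h1 : DD X F F' = (fun t : V × (V × V) => t.1 + (t.2.1 - t.2.2)) ''
      ((X : Set V) ×ˢ (F ×ˢ F')) := by
    ext x
    constructor
    · rintro ⟨u, hu, f, hf, f', hf', rfl⟩
      exact ⟨(u, (f, f')), ⟨hu, hf, hf'⟩, rfl⟩
    · rintro ⟨⟨u, f, f'⟩, ⟨hu, hf, hf'⟩, rfl⟩
      exact ⟨u, hu, f, hf, f', hf', rfl⟩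
  have h2 := Set.ncard_image_le (f := fun t : V × (V × V) => t.1 + (t.2.1 - t.2.2))
    (s := (X : Set V) ×ˢ (F ×ˢ F')) (Set.toFinite _)
  have h3 : (X : Set V).ncard = p ^ finrank (ZMod p) X := by
    rw [← card_pow X]; rfl
  rw [Set.ncard_prod, Set.ncard_prod, h3] at h2
  rw [h1]
  exact h2

/-- Greedy choice inside a subspace. -/
theorem greedy_sub (U : Submodule (ZMod p) V) (E : Set V) (h0 : (0 : V) ∉ E) (m : ℕ)
    (h : (E.ncard + 1) * p ^ m ≤ Nat.card U) :
    ∃ R : Submodule (ZMod p) V, R ≤ U ∧ finrank (ZMod p) R = m ∧ ∀ x ∈ R, x ∉ E := by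
  set E' : Set U := {x | (x : V) ∈ E} with hE'
  have h1 : E'.ncard ≤ E.ncard := by
    refine Set.ncard_le_ncard_of_injOn (fun x : U => (x : V)) ?_ ?_ (Set.toFinite _)
    · intro x hx
      exact hx
    · intro x _ y _ hxy
      exact Subtype.ext hxy
  obtain ⟨R, hR, hRE⟩ := greedy (p := p) E' (by simpa [hE'] using h0) m
    (le_trans (Nat.mul_le_mul_right _ (by omega)) h)
  refine ⟨R.map U.subtype, Submodule.map_subtype_le U R, ?_, ?_⟩
  · rw [← hR]
    exact (Submodule.equivMapOfInjective U.subtype U.injective_subtype R).finrank_eq.symm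
  · rintro _ ⟨x, hx, rfl⟩ hxE
    exact hRE x hx hxE

theorem finrank_comap_mkQ (T : Submodule (ZMod p) V) (R : Submodule (ZMod p) (V ⧸ T)) :
    finrank (ZMod p) (R.comap T.mkQ) = finrank (ZMod p) T + finrank (ZMod p) R := by
  have h1 := LinearMap.finrank_range_add_finrank_ker (R.mkQ.comp T.mkQ)
  have h2 : LinearMap.range (R.mkQ.comp T.mkQ) = ⊤ := by
    rw [LinearMap.range_eq_top]
    exact (Submodule.mkQ_surjective R).comp (Submodule.mkQ_surjective T)
  rw [h2, finrank_top, LinearMap.ker_comp, Submodule.ker_mkQ] at h1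
  have h3 := Submodule.finrank_quotient_add_finrank R
  have h4 := Submodule.finrank_quotient_add_finrank T
  omega

theorem finrank_map_mkQ (T U : Submodule (ZMod p) V) (h : T ≤ U) :
    finrank (ZMod p) (U.map T.mkQ) + finrank (ZMod p) T = finrank (ZMod p) U := by
  have h1 := LinearMap.finrank_range_add_finrank_ker (T.mkQ.domRestrict U)
  rw [LinearMap.range_domRestrict, LinearMap.ker_domRestrict, Submodule.ker_mkQ] at h1
  have h2 : finrank (ZMod p) (T.comap U.subtype) = finrank (ZMod p) T :=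
    (Submodule.comapSubtypeEquivOfLe h).finrank_eq
  rw [← h2]
  exact h1

/-- Greedy choice above a subspace. -/
theorem greedy_above (T : Submodule (ZMod p) V) (E : Set V) (h0 : ∀ x ∈ E, x ∉ T) (m : ℕ)
    (h : ((T.mkQ '' E).ncard + 1) * p ^ m ≤ Nat.card (V ⧸ T)) :
    ∃ R : Submodule (ZMod p) V, T ≤ R ∧ finrank (ZMod p) R = finrank (ZMod p) T + m ∧
      ∀ x ∈ R, x ∉ E := by
  haveI : Finite (V ⧸ T) := Finite.of_surjective T.mkQ (Submodule.mkQ_surjective T)
  obtain ⟨R, hR, hRE⟩ := greedy (p := p) (T.mkQ '' E) (by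
    rintro ⟨x, hx, h⟩
    rw [Submodule.mkQ_apply, Submodule.Quotient.mk_eq_zero] at h
    exact h0 x hx h) m h
  refine ⟨R.comap T.mkQ, ?_, by rw [finrank_comap_mkQ, hR], ?_⟩
  · intro x hx
    rw [Submodule.mem_comap, Submodule.mkQ_apply, (Submodule.Quotient.mk_eq_zero T).2 hx]
    exact R.zero_mem
  · intro x hx hxE
    exact hRE _ hx ⟨x, hxE, rfl⟩

end

/-- The numerical condition. -/
theorem num_aux : ∀ q : ℕ, 13 ≤ q → 1 + 2 * (4 * q + 5) ^ 2 ≤ 2 ^ q := by
  intro q hq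
  induction q, hq using Nat.le_induction with
  | base => norm_num
  | succ q hq ih =>
    have h2 : 2 ^ (q + 1) = 2 * 2 ^ q := by ring
    rw [h2]
    nlinarith

theorem num (a : ℕ) (ha : 52 ≤ a) : 1 + 2 * (a + 2) ^ 2 ≤ 2 ^ (a / 4) := by
  have h1 := num_aux (a / 4) (by omega)
  have h2 : a + 2 ≤ 4 * (a / 4) + 5 := by omega
  have h3 : (a + 2) ^ 2 ≤ (4 * (a / 4) + 5) ^ 2 := Nat.pow_le_pow_left h2 2
  omega

end Pool.Agent.Run7.h644.CU
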